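import Pool.Agent.DWH.Defs

set_option autoImplicit false

open scoped LaurentPolynomial PowerSeries
open LaurentPolynomial (T)

namespace Pool.Agent.DWH

/-- reduction of the coefficients of a polynomial over `ℂ⟦t⟧[x, x⁻¹]` modulo `t` -/
noncomputable abbrev res : ℂ⟦X⟧[T;T⁻¹] →+* ℂ[T;T⁻¹] := lmap (PowerSeries.constantCoeff (R := ℂ))

/-- scalars: `ℂ⟦t⟧[x,x⁻¹] → M_ι(ℂ⟦s⟧)[x,x⁻¹]`, `t ↦ s ^ M` -/
noncomputable abbrev scal (ι : Type) [Fintype ι] [DecidableEq ι] (M : ℕ) (hM : M ≠ 0) :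
    ℂ⟦X⟧[T;T⁻¹] →+* (Matrix ι ι ℂ⟦X⟧)[T;T⁻¹] :=
  lmap ((algebraMap ℂ⟦X⟧ (Matrix ι ι ℂ⟦X⟧)).comp (PowerSeries.expand M hM (R := ℂ) : ℂ⟦X⟧ →+* ℂ⟦X⟧))

/-- the pencil `A + B x` -/
noncomputable abbrev pen {ι : Type} [Fintype ι] [DecidableEq ι] (A B : Matrix ι ι ℂ⟦X⟧) :
    (Matrix ι ι ℂ⟦X⟧)[T;T⁻¹] := LaurentPolynomial.C A + LaurentPolynomial.C B * T 1

end Pool.Agent.DWH
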