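import Pool.Agent.DWH.Abb

/-! A root `A + B x` of `φ` that is nilpotent forces `φ(x, 0) = 0`; division of `φ` by `y₂`. -/

set_option autoImplicit false

open scoped LaurentPolynomial PowerSeries
open LaurentPolynomial (T)

namespace Pool.Agent.DWH

section entry

variable {ι : Type} [Fintype ι] [DecidableEq ι] {R : Type} [CommRing R]

/-- The entry `(i, j)` of a Laurent polynomial with matrix coefficients. -/
noncomputable def ent (i j : ι) (Q : (Matrix ι ι R)[T;T⁻¹]) : R[T;T⁻¹] :=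
  AddMonoidAlgebra.map (Matrix.entryAddMonoidHom R i j) Q

theorem ent_coeff (i j : ι) (Q : (Matrix ι ι R)[T;T⁻¹]) (n : ℤ) :
    (ent i j Q).coeff n = (Q.coeff n) i j := by
  simp [ent]

theorem ent_add (i j : ι) (P Q : (Matrix ι ι R)[T;T⁻¹]) : ent i j (P + Q) = ent i j P + ent i j Q := by
  ext n
  rw [AddMonoidAlgebra.coeff_add, Finsupp.add_apply, ent_coeff, ent_coeff, ent_coeff,
    AddMonoidAlgebra.coeff_add, Finsupp.add_apply, Matrix.add_apply]

theorem ent_zero (i j : ι) : ent i j (0 : (Matrix ι ι R)[T;T⁻¹]) = 0 := by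
  ext n; rw [ent_coeff]; rfl

theorem ent_smul (i j : ι) (r : R[T;T⁻¹]) (Q : (Matrix ι ι R)[T;T⁻¹]) :
    ent i j (lmap (algebraMap R (Matrix ι ι R)) r * Q) = r * ent i j Q := by
  induction r using AddMonoidAlgebra.induction_linear with
  | zero => rw [map_zero, zero_mul, zero_mul, ent_zero]
  | add f g hf hg => rw [map_add, add_mul, add_mul, ent_add, hf, hg]
  | single n a =>
    ext m
    have h1 : lmap (algebraMap R (Matrix ι ι R)) (AddMonoidAlgebra.single n a) =
        AddMonoidAlgebra.single n (algebraMap R (Matrix ι ι R) a) := by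
      ext1 k
      rw [coeff_lmap, AddMonoidAlgebra.coeff_single, AddMonoidAlgebra.coeff_single,
        Finsupp.single_apply, Finsupp.single_apply]
      split <;> simp
    rw [h1, ent_coeff, AddMonoidAlgebra.coeff_single_mul_apply,
      AddMonoidAlgebra.coeff_single_mul_apply, ent_coeff, Matrix.algebraMap_eq_diagonal,
      Matrix.diagonal_mul]
    rfl

theorem ent_injective {P : (Matrix ι ι R)[T;T⁻¹]} (h : ∀ i j, ent i j P = 0) : P = 0 := by
  ext1 n
  ext i j
  have := congrArg (fun q : R[T;T⁻¹] => q.coeff n) (h i j)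
  simp only [ent_coeff] at this
  exact this

end entry

theorem expand_ne_zero {M : ℕ} (hM : M ≠ 0) {f : ℂ⟦X⟧} (hf : f ≠ 0) :
    PowerSeries.expand M hM f ≠ 0 := by
  intro h
  apply hf
  ext n
  rw [← PowerSeries.coeff_expand_mul M hM f n, h]
  simp

variable {ι : Type} [Fintype ι] [DecidableEq ι]

theorem scal_smul_eq_zero {M : ℕ} (hM : M ≠ 0) {c : ℂ⟦X⟧[T;T⁻¹]} (hc : c ≠ 0)
    {Q : (Matrix ι ι ℂ⟦X⟧)[T;T⁻¹]} (h : scal ι M hM c * Q = 0) : Q = 0 := by
  have h1 : scal ι M hM c = lmap (algebraMap ℂ⟦X⟧ (Matrix ι ι ℂ⟦X⟧))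
      (lmap (PowerSeries.expand M hM (R := ℂ) : ℂ⟦X⟧ →+* ℂ⟦X⟧) c) := by
    rw [lmap_lmap]
  have h2 : lmap (PowerSeries.expand M hM (R := ℂ) : ℂ⟦X⟧ →+* ℂ⟦X⟧) c ≠ 0 := by
    obtain ⟨n, hn⟩ : ∃ n, c.coeff n ≠ 0 := by
      by_contra hcon
      push Not at hcon
      exact hc (LaurentPolynomial.ext hcon)
    intro h0
    have := congrArg (fun q : ℂ⟦X⟧[T;T⁻¹] => q.coeff n) h0
    simp only [coeff_lmap] at this
    exact expand_ne_zero hM hn this
  rw [h1] at h
  apply ent_injective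
  intro i j
  have h3 := congrArg (ent i j) h
  rw [ent_smul, ent_zero] at h3
  exact (mul_eq_zero.1 h3).resolve_left h2

theorem pen_not_nilpotent [Nonempty ι] {M : ℕ} (hM : M ≠ 0) (A B : Matrix ι ι ℂ⟦X⟧)
    (φ : Polynomial ℂ⟦X⟧[T;T⁻¹]) (hc : φ.coeff 0 ≠ 0) (hr : φ.eval₂ (scal ι M hM) (pen A B) = 0)
    (N : ℕ) : pen A B ^ N ≠ 0 := by
  intro hN
  have hex : ∃ K, pen A B ^ K = 0 := ⟨N, hN⟩
  classical
  have hK := Nat.find_spec hex
  have hKmin := fun m => Nat.find_min hex (m := m)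
  set K := Nat.find hex with hKdef
  have hK0 : K ≠ 0 := by
    intro h0
    rw [h0, pow_zero] at hK
    exact one_ne_zero hK
  obtain ⟨K', hK'⟩ := Nat.exists_eq_succ_of_ne_zero hK0
  apply hKmin K' (by omega)
  apply scal_smul_eq_zero hM hc
  have h1 : φ.eval₂ (scal ι M hM) (pen A B) * pen A B ^ K' = 0 := by rw [hr, zero_mul]
  rw [Polynomial.eval₂_eq_sum_range, Finset.sum_mul, Finset.sum_range_succ'] at h1
  rw [Finset.sum_eq_zero, zero_add, pow_zero, mul_one] at h1
  · exact h1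
  · intro i _
    rw [mul_assoc, ← pow_add, show i + 1 + K' = i + K by omega, pow_add, hK, mul_zero, mul_zero]

theorem IsPlaneCurve.divX {d : ℕ} {φ : Polynomial ℂ⟦X⟧[T;T⁻¹]}
    (h : IsPlaneCurve (d + 1) (Polynomial.X * φ)) : IsPlaneCurve d φ := by
  have hm : φ.Monic := Polynomial.Monic.of_mul_monic_left Polynomial.monic_X h.monic
  refine ⟨hm, ?_, ?_⟩
  · have := h.natDegree
    rw [Polynomial.natDegree_X_mul hm.ne_zero] at this
    omega
  · intro j hj n hn
    apply h.coeff j (by omega) n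
    rw [show d + 1 - j = d - j + 1 by omega, Polynomial.coeff_X_mul]
    exact hn

end Pool.Agent.DWH
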