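import Mathlib

/-!
# Noncommutative deformations of a rational curve in the threefolds `X_g`

Let `g` be a polynomial in `y₂` with coefficients in `ℂ[x, x⁻¹]`. The smooth threefold `X_g` is
covered by two copies of affine space, with coordinates `(x, y₁, y₂)` and `(w, z₁, z₂)`, glued by
`w = x⁻¹`, `z₁ = x³ y₁ + g(x, y₂)`, `z₂ = x⁻¹ y₂`. Its canonical bundle is trivial. If
`g(x, 0) = 0`, the equations `y₁ = y₂ = 0` and `z₁ = z₂ = 0` define a curve `C ≅ ℙ¹` in `X_g`.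
In the Laurent polynomials below `T` is `x`, and `T⁻¹` is `w`.
-/

set_option autoImplicit false

open scoped LaurentPolynomial PowerSeries
open LaurentPolynomial (T)

namespace Pool.Agent.DWH

/-- Coefficientwise map of Laurent polynomials. -/
noncomputable def lmap {A B : Type} [Semiring A] [Semiring B] (f : A →+* B) :
    A[T;T⁻¹] →+* B[T;T⁻¹] :=
  AddMonoidAlgebra.mapRingHom ℤ f

/-- The Laurent polynomial is a polynomial in `x`. -/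
def InX {A : Type} [Semiring A] (p : A[T;T⁻¹]) : Prop := ∀ n : ℤ, n < 0 → p.coeff n = 0

/-- The Laurent polynomial is a polynomial in `w = x⁻¹`. -/
def InW {A : Type} [Semiring A] (p : A[T;T⁻¹]) : Prop := ∀ n : ℤ, 0 < n → p.coeff n = 0

/-- `Γ`, with residue map `ε`, is an artinian local `ℂ`-algebra with residue field `ℂ`, not
necessarily commutative: it is finite dimensional and the ideal `ker ε` is nilpotent. -/
structure ArtLocal (Γ : Type) [Ring Γ] [Algebra ℂ Γ] (ε : Γ →ₐ[ℂ] ℂ) : Prop where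
  finite : FiniteDimensional ℂ Γ
  nilpotent : ∃ N : ℕ, ∀ l : List Γ, l.length = N → (∀ x ∈ l, ε x = 0) → l.prod = 0

variable {g : Polynomial ℂ[T;T⁻¹]}

/-- A deformation over `Γ` of the sheaf `O_C` on `X_g`. On the first chart it is the free module
`Γ[x]`, on which `y₁, y₂` act by right multiplication with commuting elements that vanish modulo
`ker ε`, on the second chart it is `Γ[w]` with `z₁, z₂`; the two are glued over `Γ[x, x⁻¹]` by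
right multiplication with the unit `u`. -/
structure NCDef (g : Polynomial ℂ[T;T⁻¹]) (Γ : Type) [Ring Γ] [Algebra ℂ Γ] (ε : Γ →ₐ[ℂ] ℂ) where
  y₁ : Γ[T;T⁻¹]
  y₂ : Γ[T;T⁻¹]
  z₁ : Γ[T;T⁻¹]
  z₂ : Γ[T;T⁻¹]
  u : (Γ[T;T⁻¹])ˣ
  inX₁ : InX y₁
  inX₂ : InX y₂
  inW₁ : InW z₁
  inW₂ : InW z₂
  y₁_res : lmap (ε : Γ →+* ℂ) y₁ = 0
  y₂_res : lmap (ε : Γ →+* ℂ) y₂ = 0
  z₁_res : lmap (ε : Γ →+* ℂ) z₁ = 0
  z₂_res : lmap (ε : Γ →+* ℂ) z₂ = 0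
  u_res : lmap (ε : Γ →+* ℂ) (u : Γ[T;T⁻¹]) = 1
  y_comm : y₁ * y₂ = y₂ * y₁
  z_comm : z₁ * z₂ = z₂ * z₁
  glue₁ : (u : Γ[T;T⁻¹]) * z₁ =
    (T 3 * y₁ + g.eval₂ (lmap (algebraMap ℂ Γ)) y₂) * (u : Γ[T;T⁻¹])
  glue₂ : (u : Γ[T;T⁻¹]) * z₂ = T (-1) * y₂ * (u : Γ[T;T⁻¹])

section maps

variable {Γ Γ' : Type} [Ring Γ] [Ring Γ'] [Algebra ℂ Γ] [Algebra ℂ Γ']

theorem coeff_lmap {A B : Type} [Semiring A] [Semiring B] (f : A →+* B) (p : A[T;T⁻¹]) (n : ℤ) :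
    (lmap f p).coeff n = f (p.coeff n) := by
  simp [lmap]

theorem coeff_T {A : Type} [Semiring A] (n m : ℤ) :
    (T n : A[T;T⁻¹]).coeff m = if n = m then 1 else 0 := by
  show (AddMonoidAlgebra.single n (1 : A)).coeff m = _
  rw [AddMonoidAlgebra.coeff_single, Finsupp.single_apply]

theorem lmap_T {A B : Type} [Semiring A] [Semiring B] (f : A →+* B) (n : ℤ) :
    lmap f (T n) = T n := by
  ext m
  rw [coeff_lmap, coeff_T, coeff_T]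
  split <;> simp

theorem lmap_lmap {A B C : Type} [Semiring A] [Semiring B] [Semiring C] (f : A →+* B)
    (h : B →+* C) (p : A[T;T⁻¹]) : lmap h (lmap f p) = lmap (h.comp f) p := by
  ext n
  rw [coeff_lmap, coeff_lmap, coeff_lmap]
  rfl

theorem InX.lmap {A B : Type} [Semiring A] [Semiring B] (f : A →+* B) {p : A[T;T⁻¹]}
    (h : InX p) : InX (lmap f p) := fun n hn => by rw [coeff_lmap, h n hn, map_zero]

theorem InW.lmap {A B : Type} [Semiring A] [Semiring B] (f : A →+* B) {p : A[T;T⁻¹]}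
    (h : InW p) : InW (lmap f p) := fun n hn => by rw [coeff_lmap, h n hn, map_zero]

/-- The deformation induced along a homomorphism of local algebras. -/
noncomputable def NCDef.map {ε : Γ →ₐ[ℂ] ℂ} {ε' : Γ' →ₐ[ℂ] ℂ} (h : Γ →ₐ[ℂ] Γ')
    (hε : ε'.comp h = ε) (D : NCDef g Γ ε) : NCDef g Γ' ε' where
  y₁ := lmap (h : Γ →+* Γ') D.y₁
  y₂ := lmap (h : Γ →+* Γ') D.y₂
  z₁ := lmap (h : Γ →+* Γ') D.z₁
  z₂ := lmap (h : Γ →+* Γ') D.z₂
  u := Units.map (lmap (h : Γ →+* Γ') : Γ[T;T⁻¹] →* Γ'[T;T⁻¹]) D.u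
  inX₁ := D.inX₁.lmap _
  inX₂ := D.inX₂.lmap _
  inW₁ := D.inW₁.lmap _
  inW₂ := D.inW₂.lmap _
  y₁_res := by subst hε; rw [lmap_lmap]; exact D.y₁_res
  y₂_res := by subst hε; rw [lmap_lmap]; exact D.y₂_res
  z₁_res := by subst hε; rw [lmap_lmap]; exact D.z₁_res
  z₂_res := by subst hε; rw [lmap_lmap]; exact D.z₂_res
  u_res := by
    subst hε
    show lmap _ (lmap _ (D.u : Γ[T;T⁻¹])) = 1
    rw [lmap_lmap]; exact D.u_res
  y_comm := by rw [← map_mul, D.y_comm, map_mul]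
  z_comm := by rw [← map_mul, D.z_comm, map_mul]
  glue₁ := by
    show lmap (h : Γ →+* Γ') (D.u : Γ[T;T⁻¹]) * _ = _ * lmap (h : Γ →+* Γ') (D.u : Γ[T;T⁻¹])
    rw [← map_mul, D.glue₁, map_mul, map_add, map_mul, lmap_T]
    congr 2
    rw [Polynomial.hom_eval₂]
    congr 1
    refine RingHom.ext fun p => ?_
    rw [RingHom.comp_apply, lmap_lmap]
    congr 1
    exact congrArg lmap h.comp_algebraMap
  glue₂ := by
    show lmap (h : Γ →+* Γ') (D.u : Γ[T;T⁻¹]) * _ = _ * lmap (h : Γ →+* Γ') (D.u : Γ[T;T⁻¹])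
    rw [← map_mul, D.glue₂, map_mul, map_mul, lmap_T]

/-- Two deformations over `Γ` are isomorphic, by an isomorphism that is the identity modulo
`ker ε`: right multiplication with a unit `a` of `Γ[x]` on the first chart and with a unit `b` of
`Γ[w]` on the second. -/
def NCDef.Iso {ε : Γ →ₐ[ℂ] ℂ} (D E : NCDef g Γ ε) : Prop :=
  ∃ a b : (Γ[T;T⁻¹])ˣ,
    InX (a : Γ[T;T⁻¹]) ∧ InX ((a⁻¹ : (Γ[T;T⁻¹])ˣ) : Γ[T;T⁻¹]) ∧
    InW (b : Γ[T;T⁻¹]) ∧ InW ((b⁻¹ : (Γ[T;T⁻¹])ˣ) : Γ[T;T⁻¹]) ∧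
    lmap (ε : Γ →+* ℂ) (a : Γ[T;T⁻¹]) = 1 ∧ lmap (ε : Γ →+* ℂ) (b : Γ[T;T⁻¹]) = 1 ∧
    D.y₁ * (a : Γ[T;T⁻¹]) = (a : Γ[T;T⁻¹]) * E.y₁ ∧
    D.y₂ * (a : Γ[T;T⁻¹]) = (a : Γ[T;T⁻¹]) * E.y₂ ∧
    D.z₁ * (b : Γ[T;T⁻¹]) = (b : Γ[T;T⁻¹]) * E.z₁ ∧
    D.z₂ * (b : Γ[T;T⁻¹]) = (b : Γ[T;T⁻¹]) * E.z₂ ∧ D.u * b = a * E.u

end maps

/-- Some finite dimensional local algebra `Λ` carries a deformation of `O_C` from which every
deformation of `O_C` over every artinian local algebra `Γ` is induced by a homomorphism `Λ → Γ`.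
If the noncommutative deformation algebra `Λ_def` of `C ⊆ X_g` is finite dimensional, then it is
such a `Λ`. -/
def FinVersal (g : Polynomial ℂ[T;T⁻¹]) : Prop :=
  ∃ (Λ : Type) (_ : Ring Λ) (_ : Algebra ℂ Λ) (εΛ : Λ →ₐ[ℂ] ℂ), ArtLocal Λ εΛ ∧
    ∃ D : NCDef g Λ εΛ, ∀ (Γ : Type) [Ring Γ] [Algebra ℂ Γ] (ε : Γ →ₐ[ℂ] ℂ), ArtLocal Γ ε →
      ∀ E : NCDef g Γ ε, ∃ (h : Λ →ₐ[ℂ] Γ) (hε : ε.comp h = εΛ), (D.map h hε).Iso E

/-- `φ = y₂^d + c₁ y₂^(d-1) + ... + c_d` with `c_j` a polynomial in `x` of degree at most `j`, with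
coefficients in `ℂ⟦t⟧`: the equation of a family, over `ℂ⟦t⟧`, of plane curves of degree `d` in the
surface with coordinates `(x, y₂)`, `(w, z₂)`, which is the complement of a point in `ℙ²`. -/
structure IsPlaneCurve (d : ℕ) (φ : Polynomial ℂ⟦X⟧[T;T⁻¹]) : Prop where
  monic : φ.Monic
  natDegree : φ.natDegree = d
  coeff : ∀ j ≤ d, ∀ n : ℤ, (φ.coeff (d - j)).coeff n ≠ 0 → 0 ≤ n ∧ n ≤ j

/-- The family of plane curves `φ = 0` lifts to `X_g`: there are functions `y₁ = σ₀(x, y₂)` and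
`z₁ = σ₁(w, z₂)` with `σ₁(x⁻¹, x⁻¹ y₂) = x³ σ₀(x, y₂) + g(x, y₂)` modulo `φ`. So
`{φ = 0, y₁ = σ₀}` and `{φ = 0, z₁ = σ₁}` are the two charts of a closed subscheme of
`X_g × Spec ℂ⟦t⟧` which the projection to `(x, y₂)`, `(w, z₂)` maps isomorphically onto the family
`φ = 0`. -/
def Lifts (g : Polynomial ℂ[T;T⁻¹]) (φ : Polynomial ℂ⟦X⟧[T;T⁻¹]) : Prop :=
  ∃ σ₀ σ₁ : Polynomial ℂ⟦X⟧[T;T⁻¹], (∀ k, InX (σ₀.coeff k)) ∧ (∀ k, InW (σ₁.coeff k)) ∧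
    φ ∣ Polynomial.C (T 3) * σ₀ + g.map (lmap (algebraMap ℂ ℂ⟦X⟧)) -
      σ₁.comp (Polynomial.C (T (-1)) * Polynomial.X)

end Pool.Agent.DWH
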