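import Pool.Agent.DWH.Abb
import Pool.Agent.DWF.Root

/-! Package G1 (helper37): the linear factorisation in root form for a family of plane curves. -/

set_option autoImplicit false

open scoped LaurentPolynomial PowerSeries
open LaurentPolynomial (T)

namespace Pool.Agent.DWH

section aux

variable {A B : Type} [Semiring A] [Semiring B]

/-- the polynomial part of degree at most `j` -/
noncomputable def cP (p : A[T;T⁻¹]) (j : ℕ) : Polynomial A :=
  ∑ i ∈ Finset.range (j + 1), Polynomial.C (p.coeff (i : ℤ)) * Polynomial.X ^ i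

theorem coeff_C_mul_T (a : A) (i n : ℤ) :
    (LaurentPolynomial.C a * T i : A[T;T⁻¹]).coeff n = if i = n then a else 0 := by
  rw [← LaurentPolynomial.single_eq_C_mul_T, AddMonoidAlgebra.coeff_single, Finsupp.single_apply]

theorem toLaurent_cP (p : A[T;T⁻¹]) (j : ℕ) (h : ∀ n : ℤ, p.coeff n ≠ 0 → 0 ≤ n ∧ n ≤ j) :
    Polynomial.toLaurent (cP p j) = p := by
  ext n
  rw [cP, map_sum, AddMonoidAlgebra.coeff_sum, Finsupp.finsetSum_apply]
  have e1 : ∀ i ∈ Finset.range (j + 1),
      (Polynomial.toLaurent (Polynomial.C (p.coeff (i : ℤ)) * Polynomial.X ^ i)).coeff n =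
        if (i : ℤ) = n then p.coeff n else 0 := by
    intro i _
    rw [Polynomial.toLaurent_C_mul_X_pow, coeff_C_mul_T]
    split_ifs with hin
    · rw [hin]
    · rfl
  rw [Finset.sum_congr rfl e1]
  by_cases hn : p.coeff n = 0
  · rw [hn]; simp
  · obtain ⟨h1, h2⟩ := h n hn
    obtain ⟨m, rfl⟩ := Int.eq_ofNat_of_zero_le h1
    rw [Finset.sum_eq_single m]
    · simp
    · intro b _ hb
      rw [if_neg]
      intro h3
      exact hb (by exact_mod_cast h3)
    · intro h3
      exact absurd (Finset.mem_range.mpr (by omega)) h3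

theorem toLaurent_map (f : A →+* B) (p : Polynomial A) :
    Polynomial.toLaurent (p.map f) = lmap f (Polynomial.toLaurent p) := by
  induction p using Polynomial.induction_on' with
  | add p q hp hq => rw [Polynomial.map_add, map_add, map_add, map_add, hp, hq]
  | monomial n a =>
    rw [Polynomial.map_monomial, ← Polynomial.C_mul_X_pow_eq_monomial,
      ← Polynomial.C_mul_X_pow_eq_monomial, Polynomial.toLaurent_C_mul_X_pow,
      Polynomial.toLaurent_C_mul_X_pow]
    ext m
    rw [coeff_lmap, coeff_C_mul_T, coeff_C_mul_T]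
    split_ifs
    · rfl
    · rw [map_zero]

end aux

theorem G1 (e : ℕ) (he : 0 < e) (φ : Polynomial ℂ⟦X⟧[T;T⁻¹]) (hφ : IsPlaneCurve e φ)
    (h0 : φ.map res = Polynomial.X ^ e) :
    ∃ (M : ℕ) (hM : M ≠ 0) (ι : Type) (_ : Fintype ι) (_ : DecidableEq ι) (_ : Nonempty ι)
      (A B : Matrix ι ι ℂ⟦X⟧), (∀ i j, PowerSeries.X ∣ A i j) ∧ (∀ i j, PowerSeries.X ∣ B i j) ∧
      φ.eval₂ (scal ι M hM) (pen A B) = 0 := by
  obtain ⟨d, rfl⟩ : ∃ d, e = d + 1 := ⟨e - 1, by omega⟩
  have hroot : ∃ q : ℂ, IsPrimitiveRoot q (d + 1) :=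
    ⟨_, Complex.isPrimitiveRoot_exp (d + 1) (Nat.succ_ne_zero d)⟩
  obtain ⟨q, hq⟩ := hroot
  -- the coefficients
  let c : ℕ → Polynomial ℂ⟦X⟧ := fun j => if j ≤ d + 1 then cP (φ.coeff (d + 1 - j)) j else 0
  have hc : ∀ j, j ≤ d + 1 → Polynomial.toLaurent (c j) = φ.coeff (d + 1 - j) := by
    intro j hj
    simp only [c, if_pos hj]
    exact toLaurent_cP _ _ (fun n hn => hφ.coeff j hj n hn)
  have hdeg : ∀ j, (c j).natDegree ≤ j := by
    intro j
    simp only [c]
    split_ifs with hj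
    · refine Polynomial.natDegree_sum_le_of_forall_le _ _ fun i hi => ?_
      refine (Polynomial.natDegree_C_mul_X_pow_le _ _).trans ?_
      exact Nat.lt_succ_iff.mp (Finset.mem_range.mp hi)
    · simp
  have hc0 : c 0 = 1 := by
    apply Polynomial.toLaurent_injective
    rw [hc 0 (Nat.zero_le _), Nat.sub_zero, map_one]
    have := hφ.monic
    rw [Polynomial.Monic, Polynomial.leadingCoeff, hφ.natDegree] at this
    exact this
  have hs : ∀ j, j ≠ 0 → ∀ i, PowerSeries.constantCoeff ((c j).coeff i) = 0 := by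
    intro j hj i
    by_cases hjd : j ≤ d + 1
    · have h1 : lmap (PowerSeries.constantCoeff (R := ℂ)) (φ.coeff (d + 1 - j)) = 0 := by
        have := congrArg (fun p => Polynomial.coeff p (d + 1 - j)) h0
        simp only [Polynomial.coeff_map, Polynomial.coeff_X_pow] at this
        rw [if_neg (by omega)] at this
        exact this
      rw [← hc j hjd, ← toLaurent_map] at h1
      have h2 : (c j).map (PowerSeries.constantCoeff (R := ℂ)) = 0 :=
        Polynomial.toLaurent_injective (by rw [h1, map_zero])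
      have := congrArg (fun p => Polynomial.coeff p i) h2
      simpa [Polynomial.coeff_map] using this
    · have : c j = 0 := by simp only [c, if_neg hjd]
      rw [this]; simp
  obtain ⟨n, i1, i2, i3, A, B, hA, hB, hsum⟩ := DWF.root_form hq c hc0 hdeg hs
  refine ⟨d + 2, Nat.succ_ne_zero _, n, i1, i2, i3, A, B, hA, hB, ?_⟩
  -- transport
  let Ψ : Matrix n n (Polynomial ℂ⟦X⟧) →+* (Matrix n n ℂ⟦X⟧)[T;T⁻¹] :=
    (Polynomial.toLaurent).comp (matPolyEquiv (n := n) (R := ℂ⟦X⟧)).toRingEquiv.toRingHom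
  have hΨ : ∀ M, Ψ M = Polynomial.toLaurent (matPolyEquiv M) := fun M => rfl
  have hT : Ψ (DWF.TT A B) = pen A B := by
    rw [hΨ, DWF.TT, map_add, matPolyEquiv_map_C, matPolyEquiv_map_smul, matPolyEquiv_map_C,
      map_add, map_mul, Polynomial.toLaurent_C, Polynomial.toLaurent_C, Polynomial.map_X,
      Polynomial.toLaurent_X, LaurentPolynomial.T_mul]
  have hsm : ∀ (p : Polynomial ℂ⟦X⟧) (M : Matrix n n (Polynomial ℂ⟦X⟧)), Ψ (p • M) =
      lmap (algebraMap ℂ⟦X⟧ (Matrix n n ℂ⟦X⟧)) (Polynomial.toLaurent p) * Ψ M := by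
    intro p M
    rw [hΨ, matPolyEquiv_map_smul, map_mul, toLaurent_map, hΨ]
  have h1 := congrArg Ψ hsum
  rw [map_sum, map_zero] at h1
  have h2 : ∀ j ∈ Finset.range (d + 2),
      Ψ (((c j).map (PowerSeries.expand (d + 2) (Nat.succ_ne_zero _)).toRingHom) •
          (DWF.TT A B) ^ (d + 1 - j)) =
        scal n (d + 2) (Nat.succ_ne_zero _) (φ.coeff (d + 1 - j)) * pen A B ^ (d + 1 - j) := by
    intro j hj
    have hj' : j ≤ d + 1 := Nat.lt_succ_iff.mp (Finset.mem_range.mp hj)
    rw [hsm, map_pow, hT, toLaurent_map, hc j hj', lmap_lmap]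
    rfl
  rw [Finset.sum_congr rfl h2] at h1
  rw [Polynomial.eval₂_eq_sum_range, hφ.natDegree]
  rw [← Finset.sum_range_reflect]
  simpa [Nat.add_sub_cancel] using h1

end Pool.Agent.DWH
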