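import Pool.Agent.DWH.Abb

/-!
# Package G2: the order of nilpotency of `y₂` is bounded for all deformations
-/

set_option autoImplicit false

open scoped LaurentPolynomial PowerSeries
open LaurentPolynomial (T)

namespace Pool.Agent.DWH

section

variable {Λ : Type} [Ring Λ] [Algebra ℂ Λ]

/-- sums of products of `k` elements of `ker ε` -/
def pw (ε : Λ →ₐ[ℂ] ℂ) (k : ℕ) : AddSubmonoid Λ :=
  AddSubmonoid.closure {z | ∃ l : List Λ, l.length = k ∧ (∀ x ∈ l, ε x = 0) ∧ l.prod = z}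

theorem pw_mul (ε : Λ →ₐ[ℂ] ℂ) (k : ℕ) {a b : Λ} (ha : ε a = 0) (hb : b ∈ pw ε k) :
    a * b ∈ pw ε (k + 1) := by
  unfold pw at hb
  induction hb using AddSubmonoid.closure_induction with
  | mem x hx =>
    obtain ⟨l, hl, h1, rfl⟩ := hx
    refine AddSubmonoid.subset_closure ⟨a :: l, by simp [hl], ?_, by simp⟩
    intro x hx
    rcases List.mem_cons.1 hx with rfl | hx
    · exact ha
    · exact h1 x hx
  | zero => rw [mul_zero]; exact zero_mem _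
  | add x y _ _ hx hy => rw [mul_add]; exact add_mem hx hy

theorem pw_zero (ε : Λ →ₐ[ℂ] ℂ) (N : ℕ)
    (hN : ∀ l : List Λ, l.length = N → (∀ x ∈ l, ε x = 0) → l.prod = 0) {a : Λ}
    (ha : a ∈ pw ε N) : a = 0 := by
  unfold pw at ha
  induction ha using AddSubmonoid.closure_induction with
  | mem x hx =>
    obtain ⟨l, hl, h1, rfl⟩ := hx
    exact hN l hl h1
  | zero => rfl
  | add x y _ _ hx hy => rw [hx, hy, add_zero]

theorem coeff_mul_mem (ε : Λ →ₐ[ℂ] ℂ) (k : ℕ) (p q : Λ[T;T⁻¹]) (hp : ∀ n, ε (p.coeff n) = 0)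
    (hq : ∀ n, q.coeff n ∈ pw ε k) (n : ℤ) : (p * q).coeff n ∈ pw ε (k + 1) := by
  classical
  rw [AddMonoidAlgebra.coeff_mul]
  refine sum_mem fun i _ => sum_mem fun j _ => ?_
  dsimp only
  split
  · exact pw_mul ε k (hp i) (hq j)
  · exact zero_mem _

theorem pow_coeff (ε : Λ →ₐ[ℂ] ℂ) (p : Λ[T;T⁻¹]) (hp : ∀ n, ε (p.coeff n) = 0) (k : ℕ) :
    ∀ n : ℤ, (p ^ (k + 1)).coeff n ∈ pw ε (k + 1) := by
  induction k with
  | zero =>
    intro n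
    rw [zero_add, pow_one]
    exact AddSubmonoid.subset_closure ⟨[p.coeff n], rfl, by simpa using hp n, by simp⟩
  | succ k ih =>
    intro n
    rw [pow_succ']
    exact coeff_mul_mem ε (k + 1) p _ hp ih n

theorem pow_eq_zero (ε : Λ →ₐ[ℂ] ℂ) (p : Λ[T;T⁻¹]) (hp : lmap (ε : Λ →+* ℂ) p = 0) (N : ℕ)
    (hN : ∀ l : List Λ, l.length = N → (∀ x ∈ l, ε x = 0) → l.prod = 0) : p ^ N = 0 := by
  have hp' : ∀ n, ε (p.coeff n) = 0 := by
    intro n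
    have h := coeff_lmap (ε : Λ →+* ℂ) p n
    rw [hp] at h
    simpa using h.symm
  rcases N with _ | k
  · have h1 : (1 : Λ) = 0 := by simpa using hN [] rfl (by simp)
    have : Subsingleton Λ := ⟨fun a b => by rw [← mul_one a, ← mul_one b, h1, mul_zero, mul_zero]⟩
    ext n
    exact Subsingleton.elim _ _
  · ext n
    rw [pw_zero ε (k + 1) hN (pow_coeff ε p hp' k n)]
    rfl

end

/-- G2 -/
theorem G2 (g : Polynomial ℂ[T;T⁻¹]) (h : FinVersal g) :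
    ∃ N : ℕ, ∀ (Γ : Type) [Ring Γ] [Algebra ℂ Γ] (ε : Γ →ₐ[ℂ] ℂ), ArtLocal Γ ε →
      ∀ E : NCDef g Γ ε, E.y₂ ^ N = 0 := by
  obtain ⟨Λ, _, _, εΛ, hΛ, D, hD⟩ := h
  obtain ⟨N, hN⟩ := hΛ.nilpotent
  refine ⟨N, fun Γ _ _ ε hΓ E => ?_⟩
  obtain ⟨f, hf, a, b, -, -, -, -, -, -, -, h2, -⟩ := hD Γ ε hΓ E
  have h3 : D.y₂ ^ N = 0 := pow_eq_zero εΛ D.y₂ D.y₂_res N hN
  have h4 : (D.map f hf).y₂ ^ N = 0 := by
    show (lmap (f : Λ →+* Γ) D.y₂) ^ N = 0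
    rw [← map_pow, h3, map_zero]
  have h5 : E.y₂ = ((a⁻¹ : (Γ[T;T⁻¹])ˣ) : Γ[T;T⁻¹]) * (D.map f hf).y₂ * (a : Γ[T;T⁻¹]) := by
    rw [mul_assoc, h2, ← mul_assoc, Units.inv_mul, one_mul]
  have h6 : ∀ k : ℕ, E.y₂ ^ k = ((a⁻¹ : (Γ[T;T⁻¹])ˣ) : Γ[T;T⁻¹]) * (D.map f hf).y₂ ^ k *
      (a : Γ[T;T⁻¹]) := by
    intro k
    induction k with
    | zero => simp
    | succ k ih =>
      rw [pow_succ, ih]
      conv_lhs => rw [h5]
      rw [pow_succ]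
      simp only [mul_assoc]
      rw [Units.mul_inv_cancel_left]
  rw [h6 N, h4, mul_zero, zero_mul]

end Pool.Agent.DWH
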