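import Pool.Agent.DWH.Abb

/-!
# From a root of the equation to a noncommutative deformation

If the family `φ = 0` lifts to `X_g` and `A + B x` is a root of `φ` with entries in `(s)`, then for
every `n` the lift gives a deformation of `O_C` over the local algebra of the matrices over
`ℂ⟦s⟧/s^(n+1)` that are scalar modulo `s`.
-/

set_option autoImplicit false

open scoped LaurentPolynomial PowerSeries
open LaurentPolynomial (T)

namespace Pool.Agent.DWH

namespace G3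

/-! ### Laurent polynomials -/

section laurent

variable {A B : Type}

theorem lmap_injective [Semiring A] [Semiring B] (f : A →+* B) (hf : Function.Injective f) :
    Function.Injective (lmap f) := by
  intro p q h
  ext n
  apply hf
  rw [← coeff_lmap, ← coeff_lmap, h]

theorem coeff_C [Semiring A] (a : A) (m : ℤ) :
    (LaurentPolynomial.C a : A[T;T⁻¹]).coeff m = if m = 0 then a else 0 := by
  show (AddMonoidAlgebra.single 0 a : A[T;T⁻¹]).coeff m = _
  rw [AddMonoidAlgebra.coeff_single, Finsupp.single_apply]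
  simp only [eq_comm]

theorem lmap_C [Semiring A] [Semiring B] (f : A →+* B) (a : A) :
    lmap f (LaurentPolynomial.C a) = LaurentPolynomial.C (f a) := by
  ext m
  rw [coeff_lmap, coeff_C, coeff_C]
  split <;> simp

theorem coeff_C_mul_T [Semiring A] (a : A) (n m : ℤ) :
    (LaurentPolynomial.C a * T n : A[T;T⁻¹]).coeff m = if n = m then a else 0 := by
  rw [← LaurentPolynomial.single_eq_C_mul_T]
  show (AddMonoidAlgebra.single n a : A[T;T⁻¹]).coeff m = _
  rw [AddMonoidAlgebra.coeff_single, Finsupp.single_apply]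

theorem T_neg_mul [Semiring A] (a b : A) :
    (T (-1) * (LaurentPolynomial.C a + LaurentPolynomial.C b * T 1) : A[T;T⁻¹]) =
      LaurentPolynomial.C b + LaurentPolynomial.C a * T (-1) := by
  rw [LaurentPolynomial.T_mul, add_mul, LaurentPolynomial.mul_T_assoc, add_comm]
  simp

theorem inX_pen [Semiring A] (a b : A) :
    InX (LaurentPolynomial.C a + LaurentPolynomial.C b * T 1) := by
  intro m hm
  rw [← mul_one (LaurentPolynomial.C a), ← LaurentPolynomial.T_zero,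
    AddMonoidAlgebra.coeff_add, Finsupp.add_apply, coeff_C_mul_T, coeff_C_mul_T,
    if_neg (by omega), if_neg (by omega), add_zero]

theorem inW_pen [Semiring A] (a b : A) :
    InW (LaurentPolynomial.C a + LaurentPolynomial.C b * T (-1)) := by
  intro m hm
  rw [← mul_one (LaurentPolynomial.C a), ← LaurentPolynomial.T_zero,
    AddMonoidAlgebra.coeff_add, Finsupp.add_apply, coeff_C_mul_T, coeff_C_mul_T,
    if_neg (by omega), if_neg (by omega), add_zero]

/-- central coefficients -/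
theorem lmap_commute [CommSemiring A] [Semiring B] (f : A →+* B)
    (hf : ∀ a b, f a * b = b * f a) (p : A[T;T⁻¹]) (q : B[T;T⁻¹]) : Commute (lmap f p) q := by
  induction p using LaurentPolynomial.induction_on' with
  | add p p' h h' =>
    rw [map_add]
    exact h.add_left h'
  | C_mul_T n a =>
    rw [map_mul, lmap_T, lmap_C]
    refine Commute.mul_left ?_ (LaurentPolynomial.commute_T n q)
    induction q using LaurentPolynomial.induction_on' with
    | add q q' h h' => exact h.add_right h'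
    | C_mul_T m b =>
      refine Commute.mul_right ?_ (LaurentPolynomial.commute_T m _).symm
      show _ * _ = _ * _
      rw [← map_mul, ← map_mul, hf]

theorem inX_add [Semiring A] {p q : A[T;T⁻¹]} (hp : InX p) (hq : InX q) : InX (p + q) := by
  intro n hn
  show (p + q).coeff n = 0
  rw [AddMonoidAlgebra.coeff_add, Finsupp.add_apply, hp n hn, hq n hn, add_zero]

theorem inW_add [Semiring A] {p q : A[T;T⁻¹]} (hp : InW p) (hq : InW q) : InW (p + q) := by
  intro n hn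
  show (p + q).coeff n = 0
  rw [AddMonoidAlgebra.coeff_add, Finsupp.add_apply, hp n hn, hq n hn, add_zero]

theorem inX_mul [Semiring A] {p q : A[T;T⁻¹]} (hp : InX p) (hq : InX q) : InX (p * q) := by
  intro n hn
  rw [AddMonoidAlgebra.coeff_mul]
  refine Finset.sum_eq_zero fun a _ => Finset.sum_eq_zero fun b _ => ?_
  dsimp only
  split_ifs with h
  · rcases lt_or_ge a 0 with h1 | h1
    · rw [hp a h1, zero_mul]
    · rw [hq b (by omega), mul_zero]
  · rfl

theorem inW_mul [Semiring A] {p q : A[T;T⁻¹]} (hp : InW p) (hq : InW q) : InW (p * q) := by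
  intro n hn
  rw [AddMonoidAlgebra.coeff_mul]
  refine Finset.sum_eq_zero fun a _ => Finset.sum_eq_zero fun b _ => ?_
  dsimp only
  split_ifs with h
  · rcases lt_or_ge 0 a with h1 | h1
    · rw [hp a h1, zero_mul]
    · rw [hq b (by omega), mul_zero]
  · rfl

theorem inX_one [Semiring A] : InX (1 : A[T;T⁻¹]) := by
  intro n hn
  rw [← map_one (LaurentPolynomial.C : A →+* A[T;T⁻¹]), coeff_C, if_neg (by omega)]

theorem inW_one [Semiring A] : InW (1 : A[T;T⁻¹]) := by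
  intro n hn
  rw [← map_one (LaurentPolynomial.C : A →+* A[T;T⁻¹]), coeff_C, if_neg (by omega)]

theorem inX_zero [Semiring A] : InX (0 : A[T;T⁻¹]) := fun _ _ => rfl

theorem inW_zero [Semiring A] : InW (0 : A[T;T⁻¹]) := fun _ _ => rfl

theorem inX_eval₂ [Semiring A] [Semiring B] (f : A →+* B) {σ : Polynomial A[T;T⁻¹]}
    {y : B[T;T⁻¹]} (h : ∀ k, InX (σ.coeff k)) (hy : InX y) : InX (σ.eval₂ (DWH.lmap f) y) := by
  rw [Polynomial.eval₂_eq_sum_range]
  have hp : ∀ k : ℕ, InX (y ^ k) := by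
    intro k
    induction k with
    | zero => rw [pow_zero]; exact inX_one
    | succ k ih => rw [pow_succ]; exact inX_mul ih hy
  refine Finset.sum_induction _ InX (fun _ _ => inX_add) inX_zero fun k _ => ?_
  exact inX_mul ((h k).lmap f) (hp k)

theorem inW_eval₂ [Semiring A] [Semiring B] (f : A →+* B) {σ : Polynomial A[T;T⁻¹]}
    {y : B[T;T⁻¹]} (h : ∀ k, InW (σ.coeff k)) (hy : InW y) : InW (σ.eval₂ (DWH.lmap f) y) := by
  rw [Polynomial.eval₂_eq_sum_range]
  have hp : ∀ k : ℕ, InW (y ^ k) := by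
    intro k
    induction k with
    | zero => rw [pow_zero]; exact inW_one
    | succ k ih => rw [pow_succ]; exact inW_mul ih hy
  refine Finset.sum_induction _ InW (fun _ _ => inW_add) inW_zero fun k _ => ?_
  exact inW_mul ((h k).lmap f) (hp k)

end laurent

/-! ### The constant terms -/

/-- Modulo `t` the constant terms of `σ₀` and `σ₁` vanish. -/
theorem res_coeff_zero (g : Polynomial ℂ[T;T⁻¹]) (hg : g.coeff 0 = 0) (e : ℕ) (he : 0 < e)
    (φ : Polynomial ℂ⟦X⟧[T;T⁻¹]) (h0 : φ.map res = Polynomial.X ^ e)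
    (σ₀ σ₁ : Polynomial ℂ⟦X⟧[T;T⁻¹]) (hσ₀ : ∀ k, InX (σ₀.coeff k)) (hσ₁ : ∀ k, InW (σ₁.coeff k))
    (hd : φ ∣ Polynomial.C (T 3) * σ₀ + g.map (lmap (algebraMap ℂ ℂ⟦X⟧)) -
      σ₁.comp (Polynomial.C (T (-1)) * Polynomial.X)) :
    res (σ₀.coeff 0) = 0 ∧ res (σ₁.coeff 0) = 0 := by
  have h1 := Polynomial.map_dvd res hd
  rw [h0] at h1
  have h2 : (Polynomial.X : Polynomial ℂ[T;T⁻¹]) ∣ Polynomial.map res
      (Polynomial.C (T 3) * σ₀ + g.map (lmap (algebraMap ℂ ℂ⟦X⟧)) -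
      σ₁.comp (Polynomial.C (T (-1)) * Polynomial.X)) :=
    (dvd_pow_self _ he.ne').trans h1
  rw [Polynomial.X_dvd_iff, Polynomial.coeff_map, Polynomial.coeff_sub, Polynomial.coeff_add,
    Polynomial.coeff_C_mul, Polynomial.coeff_map, hg, map_zero, add_zero,
    Polynomial.coeff_zero_eq_eval_zero (σ₁.comp _), Polynomial.eval_comp] at h2
  simp only [Polynomial.eval_mul, Polynomial.eval_C, Polynomial.eval_X, mul_zero] at h2
  rw [← Polynomial.coeff_zero_eq_eval_zero, map_sub, map_mul, lmap_T, sub_eq_zero] at h2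
  have hx : InX (res (σ₀.coeff 0)) := (hσ₀ 0).lmap _
  have hw : InW (res (σ₁.coeff 0)) := (hσ₁ 0).lmap _
  have hz : res (σ₁.coeff 0) = 0 := by
    ext n
    show (res (σ₁.coeff 0)).coeff n = 0
    rcases lt_or_ge 0 n with hn | hn
    · exact hw n hn
    · rw [← h2, LaurentPolynomial.T_mul, AddMonoidAlgebra.coeff_mul]
      refine Finset.sum_eq_zero fun a _ => Finset.sum_eq_zero fun b _ => ?_
      dsimp only
      split_ifs with h
      · rcases lt_or_ge a 0 with h1 | h1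
        · rw [hx a h1, zero_mul]
        · rw [coeff_T, if_neg (by omega), mul_zero]
      · rfl
  refine ⟨?_, hz⟩
  rw [hz] at h2
  have h3 := congrArg (fun p => T (-3) * p) h2
  simpa [← mul_assoc, ← LaurentPolynomial.T_add] using h3

/-! ### The local algebras -/

/-- `ℂ⟦s⟧/s^(n+1)` -/
abbrev Rn (n : ℕ) : Type := ℂ⟦X⟧ ⧸ Ideal.span {(PowerSeries.X : ℂ⟦X⟧) ^ (n + 1)}

/-- reduction modulo `s^(n+1)` -/
noncomputable abbrev qn (n : ℕ) : ℂ⟦X⟧ →+* Rn n := Ideal.Quotient.mk _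

theorem qn_eq_zero {n : ℕ} {p : ℂ⟦X⟧} : qn n p = 0 ↔ (PowerSeries.X : ℂ⟦X⟧) ^ (n + 1) ∣ p := by
  rw [Ideal.Quotient.eq_zero_iff_mem, Ideal.mem_span_singleton]

theorem rho_aux (n : ℕ) (a : ℂ⟦X⟧) (ha : a ∈ Ideal.span {(PowerSeries.X : ℂ⟦X⟧) ^ (n + 1)}) :
    PowerSeries.constantCoeff (R := ℂ) a = 0 := by
  rw [Ideal.mem_span_singleton] at ha
  obtain ⟨b, rfl⟩ := ha
  simp

/-- reduction modulo `s` -/
noncomputable def rho (n : ℕ) : Rn n →ₐ[ℂ] ℂ :=
  { Ideal.Quotient.lift _ (PowerSeries.constantCoeff (R := ℂ)) (rho_aux n) with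
    commutes' := by
      intro r
      show Ideal.Quotient.lift _ (PowerSeries.constantCoeff (R := ℂ)) (rho_aux n)
        (qn n (algebraMap ℂ ℂ⟦X⟧ r)) = _
      rw [Ideal.Quotient.lift_mk]
      simp }

theorem rho_qn (n : ℕ) (p : ℂ⟦X⟧) : rho n (qn n p) = PowerSeries.constantCoeff (R := ℂ) p := rfl

instance finRn (n : ℕ) : FiniteDimensional ℂ (Rn n) := by
  let c : ℂ⟦X⟧ →ₗ[ℂ] (Fin (n + 1) → ℂ) := LinearMap.pi fun i => PowerSeries.coeff (i : ℕ)
  let I : Submodule ℂ ℂ⟦X⟧ := (Ideal.span {(PowerSeries.X : ℂ⟦X⟧) ^ (n + 1)}).restrictScalars ℂ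
  have hc : ∀ p, c p = 0 ↔ p ∈ I := by
    intro p
    rw [Submodule.restrictScalars_mem, Ideal.mem_span_singleton, PowerSeries.X_pow_dvd_iff]
    constructor
    · intro h m hm
      exact congrFun h ⟨m, hm⟩
    · intro h
      funext i
      exact h i i.2
  have hinj : Function.Injective (I.liftQ c fun p hp => (hc p).2 hp) := by
    rw [← LinearMap.ker_eq_bot, Submodule.ker_liftQ_eq_bot]
    intro p hp
    exact (hc p).1 hp
  exact Module.Finite.of_injective _ hinj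

theorem alg_aux {R S : Type} [CommRing R] [Ring S] [Algebra R S] (c : R) (k : ℕ) (Q P : S) :
    algebraMap R S c * Q * (algebraMap R S (c ^ k) * P) =
      algebraMap R S (c ^ (k + 1)) * (Q * P) := by
  rw [mul_assoc, ← mul_assoc Q, ← Algebra.commutes (c ^ k) Q, pow_succ' c, map_mul]
  simp only [mul_assoc]

section gamma

variable (ι : Type) [Fintype ι] [DecidableEq ι] (n : ℕ)

/-- matrices over `ℂ⟦s⟧/s^(n+1)` that are scalar modulo `s` -/
noncomputable def Gam : Subalgebra ℂ (Matrix ι ι (Rn n)) :=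
  (⊥ : Subalgebra ℂ (Matrix ι ι ℂ)).comap (rho n).mapMatrix

/-- reduction to `⊥` -/
noncomputable def toBot : Gam ι n →ₐ[ℂ] (⊥ : Subalgebra ℂ (Matrix ι ι ℂ)) :=
  (((rho n).mapMatrix).comp (Gam ι n).val).codRestrict ⊥ fun x => x.2

variable [Nonempty ι]

/-- the residue map -/
noncomputable def eps : Gam ι n →ₐ[ℂ] ℂ :=
  ((Algebra.botEquiv ℂ (Matrix ι ι ℂ)) : _ →ₐ[ℂ] ℂ).comp (toBot ι n)

theorem eps_spec (x : Gam ι n) : (rho n).mapMatrix (x : Matrix ι ι (Rn n)) =
    algebraMap ℂ (Matrix ι ι ℂ) (eps ι n x) := by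
  have h : (Algebra.botEquiv ℂ (Matrix ι ι ℂ)).symm (eps ι n x) = toBot ι n x :=
    AlgEquiv.symm_apply_apply _ _
  have h2 := congrArg (Subtype.val) h
  exact h2.symm

theorem eps_eq_zero {x : Gam ι n} (h : (rho n).mapMatrix (x : Matrix ι ι (Rn n)) = 0) :
    eps ι n x = 0 := by
  rw [eps_spec] at h
  exact (FaithfulSMul.algebraMap_injective ℂ (Matrix ι ι ℂ)) (h.trans (map_zero _).symm)

/-- an element of residue zero is a multiple of `s` -/
theorem exists_smul {x : Gam ι n} (h : eps ι n x = 0) :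
    ∃ P : Matrix ι ι (Rn n), (x : Matrix ι ι (Rn n)) =
      algebraMap (Rn n) (Matrix ι ι (Rn n)) (qn n PowerSeries.X) * P := by
  have h1 : (rho n).mapMatrix (x : Matrix ι ι (Rn n)) = 0 := by rw [eps_spec, h, map_zero]
  have h2 : ∀ i j, ∃ r : Rn n, (x : Matrix ι ι (Rn n)) i j = qn n PowerSeries.X * r := by
    intro i j
    obtain ⟨p, hp⟩ := Ideal.Quotient.mk_surjective ((x : Matrix ι ι (Rn n)) i j)
    have h3 : rho n ((x : Matrix ι ι (Rn n)) i j) = 0 := congrFun (congrFun h1 i) j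
    rw [← hp] at h3 ⊢
    have h4 : PowerSeries.constantCoeff (R := ℂ) p = 0 := h3
    obtain ⟨q, rfl⟩ := PowerSeries.X_dvd_iff.mpr h4
    exact ⟨qn n q, map_mul _ _ _⟩
  choose P hP using h2
  refine ⟨Matrix.of P, ?_⟩
  ext i j
  rw [Matrix.algebraMap_eq_diagonal, Matrix.diagonal_mul]
  exact hP i j

theorem prod_smul (l : List (Gam ι n)) (h : ∀ x ∈ l, eps ι n x = 0) :
    ∃ P : Matrix ι ι (Rn n), (l.prod : Matrix ι ι (Rn n)) =
      algebraMap (Rn n) (Matrix ι ι (Rn n)) (qn n PowerSeries.X ^ l.length) * P := by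
  induction l with
  | nil => exact ⟨1, by simp⟩
  | cons a l ih =>
    obtain ⟨P, hP⟩ := ih fun x hx => h x (List.mem_cons_of_mem _ hx)
    obtain ⟨Q, hQ⟩ := exists_smul ι n (h a List.mem_cons_self)
    refine ⟨Q * P, ?_⟩
    rw [List.prod_cons, MulMemClass.coe_mul, hP, hQ, List.length_cons]
    exact alg_aux _ _ _ _

theorem artLocal : ArtLocal (Gam ι n) (eps ι n) where
  finite := by
    have : FiniteDimensional ℂ (Matrix ι ι (Rn n)) := inferInstance
    exact Module.Finite.of_injective (Gam ι n).val.toLinearMap Subtype.val_injective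
  nilpotent := by
    refine ⟨n + 1, fun l hl h => ?_⟩
    obtain ⟨P, hP⟩ := prod_smul ι n l h
    apply Subtype.ext
    rw [hP, hl, ← map_pow, qn_eq_zero.mpr dvd_rfl, map_zero, zero_mul]
    rfl

/-- scalars -/
noncomputable def scalG (M : ℕ) (hM : M ≠ 0) : ℂ⟦X⟧ →+* Gam ι n :=
  RingHom.codRestrict (((algebraMap (Rn n) (Matrix ι ι (Rn n))).comp (qn n)).comp
    (PowerSeries.expand M hM (R := ℂ) : ℂ⟦X⟧ →+* ℂ⟦X⟧)) (Gam ι n) (by
      intro c
      show (rho n).mapMatrix _ ∈ (⊥ : Subalgebra ℂ (Matrix ι ι ℂ))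
      rw [Algebra.mem_bot]
      refine ⟨rho n (qn n (PowerSeries.expand M hM c)), ?_⟩
      ext i j
      simp only [AlgHom.mapMatrix_apply, Matrix.map_apply, RingHom.comp_apply,
        Matrix.algebraMap_matrix_apply]
      split
      · rfl
      · simp)

omit [Nonempty ι] in
theorem scalG_val (M : ℕ) (hM : M ≠ 0) (c : ℂ⟦X⟧) :
    (scalG ι n M hM c : Matrix ι ι (Rn n)) =
      algebraMap (Rn n) (Matrix ι ι (Rn n)) (qn n (PowerSeries.expand M hM c)) := rfl

theorem eps_scalG (M : ℕ) (hM : M ≠ 0) (c : ℂ⟦X⟧) :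
    eps ι n (scalG ι n M hM c) = PowerSeries.constantCoeff (R := ℂ) c := by
  have h := eps_spec ι n (scalG ι n M hM c)
  rw [scalG_val] at h
  have h2 : (rho n).mapMatrix (algebraMap (Rn n) (Matrix ι ι (Rn n))
      (qn n (PowerSeries.expand M hM c))) =
      algebraMap ℂ (Matrix ι ι ℂ) (PowerSeries.constantCoeff (R := ℂ) c) := by
    ext i j
    simp only [AlgHom.mapMatrix_apply, Matrix.map_apply, Matrix.algebraMap_matrix_apply]
    split
    · show rho n (qn n (PowerSeries.expand M hM c)) = PowerSeries.constantCoeff (R := ℂ) c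
      rw [rho_qn, PowerSeries.constantCoeff_expand]
    · simp
  exact (FaithfulSMul.algebraMap_injective ℂ (Matrix ι ι ℂ)) (h.symm.trans h2)

omit [Nonempty ι] in
theorem scalG_comm (M : ℕ) (hM : M ≠ 0) (c : ℂ⟦X⟧) (x : Gam ι n) :
    scalG ι n M hM c * x = x * scalG ι n M hM c := by
  apply Subtype.ext
  rw [MulMemClass.coe_mul, MulMemClass.coe_mul, scalG_val]
  exact Algebra.commutes _ _

omit [Nonempty ι] in
theorem scalG_algebraMap (M : ℕ) (hM : M ≠ 0) (c : ℂ) :
    scalG ι n M hM (algebraMap ℂ ℂ⟦X⟧ c) = algebraMap ℂ (Gam ι n) c := by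
  apply Subtype.ext
  rw [scalG_val]
  have h : PowerSeries.expand M hM (algebraMap ℂ ℂ⟦X⟧ c) = algebraMap ℂ ℂ⟦X⟧ c :=
    AlgHom.commutes _ _
  rw [h]
  rfl

end gamma

/-! ### The deformation -/

section deform

variable {ι : Type} [Fintype ι] [DecidableEq ι] [Nonempty ι]

/-- A matrix with entries in `(s)` gives an element of `Gam` of residue zero. -/
theorem exists_gam (n : ℕ) (A : Matrix ι ι ℂ⟦X⟧) (hA : ∀ i j, PowerSeries.X ∣ A i j) :
    ∃ a : Gam ι n, (a : Matrix ι ι (Rn n)) = (qn n).mapMatrix A ∧ eps ι n a = 0 := by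
  have h : (rho n).mapMatrix ((qn n).mapMatrix A) = 0 := by
    ext i j
    show rho n (qn n (A i j)) = 0
    rw [rho_qn]
    exact PowerSeries.X_dvd_iff.mp (hA i j)
  refine ⟨⟨(qn n).mapMatrix A, ?_⟩, rfl, eps_eq_zero ι n h⟩
  show (rho n).mapMatrix ((qn n).mapMatrix A) ∈ (⊥ : Subalgebra ℂ (Matrix ι ι ℂ))
  rw [h]
  exact zero_mem _

theorem exists_def (g : Polynomial ℂ[T;T⁻¹]) (hg : g.coeff 0 = 0) (e : ℕ) (he : 0 < e)
    (φ : Polynomial ℂ⟦X⟧[T;T⁻¹]) (h0 : φ.map res = Polynomial.X ^ e)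
    (hL : Lifts g φ) (M : ℕ) (hM : M ≠ 0)
    (A B : Matrix ι ι ℂ⟦X⟧) (hA : ∀ i j, PowerSeries.X ∣ A i j)
    (hB : ∀ i j, PowerSeries.X ∣ B i j) (hr : φ.eval₂ (scal ι M hM) (pen A B) = 0) (n : ℕ) :
    ∃ E : NCDef g (Gam ι n) (eps ι n), lmap ((Gam ι n).val : Gam ι n →+* Matrix ι ι (Rn n)) E.y₂ =
      lmap ((qn n).mapMatrix) (pen A B) ∧ E.u = 1 := by
  obtain ⟨σ₀, σ₁, hσ₀, hσ₁, hd⟩ := hL
  obtain ⟨r0, r1⟩ := res_coeff_zero g hg e he φ h0 σ₀ σ₁ hσ₀ hσ₁ hd
  obtain ⟨a, ha, ha0⟩ := exists_gam n A hA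
  obtain ⟨b, hb, hb0⟩ := exists_gam n B hB
  set V : Gam ι n →+* Matrix ι ι (Rn n) := ((Gam ι n).val : Gam ι n →+* Matrix ι ι (Rn n)) with hV
  have hVinj : Function.Injective V := Subtype.val_injective
  set f : ℂ⟦X⟧ →+* Gam ι n := scalG ι n M hM with hf
  have hcen : ∀ (p : ℂ⟦X⟧[T;T⁻¹]) (q : (Gam ι n)[T;T⁻¹]), Commute (lmap f p) q :=
    lmap_commute f (scalG_comm ι n M hM)
  set y : (Gam ι n)[T;T⁻¹] := LaurentPolynomial.C a + LaurentPolynomial.C b * T 1 with hy
  set z : (Gam ι n)[T;T⁻¹] := T (-1) * y with hz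
  have hz' : z = LaurentPolynomial.C b + LaurentPolynomial.C a * T (-1) := T_neg_mul a b
  have hyval : lmap V y = lmap ((qn n).mapMatrix) (pen A B) := by
    have ha' : V a = (qn n).mapMatrix A := ha
    have hb' : V b = (qn n).mapMatrix B := hb
    rw [hy, map_add, map_mul, lmap_C, lmap_C, lmap_T, map_add, map_mul, lmap_C, lmap_C, lmap_T,
      ha', hb']
  let Φ : Polynomial ℂ⟦X⟧[T;T⁻¹] →+* (Gam ι n)[T;T⁻¹] :=
    Polynomial.eval₂RingHom' (lmap f) y fun p => hcen p y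
  let Ψ : Polynomial ℂ⟦X⟧[T;T⁻¹] →+* (Gam ι n)[T;T⁻¹] :=
    Polynomial.eval₂RingHom' (lmap f) z fun p => hcen p z
  have hΦ : ∀ p, Φ p = p.eval₂ (lmap f) y := fun _ => rfl
  have hΨ : ∀ p, Ψ p = p.eval₂ (lmap f) z := fun _ => rfl
  have hφ0 : Φ φ = 0 := by
    apply lmap_injective V hVinj
    rw [hΦ, Polynomial.hom_eval₂, hyval, map_zero]
    have e1 : (lmap V).comp (lmap f) = (lmap ((qn n).mapMatrix)).comp (scal ι M hM) := by
      refine RingHom.ext fun p => ?_
      rw [RingHom.comp_apply, RingHom.comp_apply, lmap_lmap, lmap_lmap]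
      congr 1
      congr 1
      refine RingHom.ext fun c => ?_
      show (f c : Matrix ι ι (Rn n)) = (qn n).mapMatrix (algebraMap ℂ⟦X⟧ (Matrix ι ι ℂ⟦X⟧)
        (PowerSeries.expand M hM c))
      rw [hf, scalG_val]
      ext i j
      simp only [RingHom.mapMatrix_apply, Matrix.map_apply, Matrix.algebraMap_matrix_apply]
      split
      · rfl
      · simp
    rw [e1, ← Polynomial.hom_eval₂, hr, map_zero]
  have hglue : Ψ σ₁ = T 3 * Φ σ₀ + g.eval₂ (lmap (algebraMap ℂ (Gam ι n))) y := by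
    obtain ⟨c, hc⟩ := hd
    have h1 := congrArg Φ (sub_eq_iff_eq_add.mp hc)
    rw [map_add, map_add, map_mul, map_mul, hφ0, zero_mul, zero_add] at h1
    have h2 : Φ (Polynomial.C (T 3)) = T 3 := by
      rw [hΦ, Polynomial.eval₂_C, lmap_T]
    have h3 : Φ (g.map (lmap (algebraMap ℂ ℂ⟦X⟧))) =
        g.eval₂ (lmap (algebraMap ℂ (Gam ι n))) y := by
      rw [hΦ, Polynomial.eval₂_map]
      congr 1
      refine RingHom.ext fun p => ?_
      rw [RingHom.comp_apply, lmap_lmap]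
      congr 1
      congr 1
      refine RingHom.ext fun c => ?_
      exact scalG_algebraMap ι n M hM c
    have h4 : Φ (σ₁.comp (Polynomial.C (T (-1)) * Polynomial.X)) = Ψ σ₁ := by
      rw [Polynomial.comp, Polynomial.hom_eval₂, hΨ]
      congr 1
      · refine RingHom.ext fun p => ?_
        rw [RingHom.comp_apply, hΦ, Polynomial.eval₂_C]
      · rw [map_mul, hΦ, hΦ, Polynomial.eval₂_C, Polynomial.eval₂_X, lmap_T]
    rw [h2, h3, h4] at h1
    exact h1.symm
  have hepsf : ((eps ι n : Gam ι n →+* ℂ)).comp f = PowerSeries.constantCoeff (R := ℂ) :=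
    RingHom.ext fun c => eps_scalG ι n M hM c
  have hyres : lmap (eps ι n : Gam ι n →+* ℂ) y = 0 := by
    rw [hy, map_add, map_mul, lmap_C, lmap_C, lmap_T]
    show LaurentPolynomial.C (eps ι n a) + LaurentPolynomial.C (eps ι n b) * T 1 = 0
    rw [ha0, hb0]
    simp
  have hzres : lmap (eps ι n : Gam ι n →+* ℂ) z = 0 := by
    rw [hz, map_mul, hyres, mul_zero]
  have hres : ∀ (σ : Polynomial ℂ⟦X⟧[T;T⁻¹]) (v : (Gam ι n)[T;T⁻¹]),
      lmap (eps ι n : Gam ι n →+* ℂ) v = 0 → res (σ.coeff 0) = 0 →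
      lmap (eps ι n : Gam ι n →+* ℂ) (σ.eval₂ (lmap f) v) = 0 := by
    intro σ v hv h
    rw [Polynomial.hom_eval₂, hv, Polynomial.eval₂_at_zero, RingHom.comp_apply, lmap_lmap, hepsf]
    exact h
  refine ⟨{ y₁ := Φ σ₀, y₂ := y, z₁ := Ψ σ₁, z₂ := z, u := 1, inX₁ := ?_, inX₂ := ?_, inW₁ := ?_,
            inW₂ := ?_, y₁_res := ?_, y₂_res := hyres, z₁_res := ?_, z₂_res := hzres,
            u_res := ?_, y_comm := ?_, z_comm := ?_, glue₁ := ?_, glue₂ := ?_ }, hyval, rfl⟩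
  · refine inX_eval₂ f hσ₀ ?_
    exact inX_pen a b
  · exact inX_pen a b
  · refine inW_eval₂ f hσ₁ ?_
    rw [hz']
    exact inW_pen b a
  · rw [hz']
    exact inW_pen b a
  · exact hres σ₀ y hyres r0
  · exact hres σ₁ z hzres r1
  · show lmap _ (1 : (Gam ι n)[T;T⁻¹]) = 1
    exact map_one _
  · have h1 : y = Φ Polynomial.X := by rw [hΦ, Polynomial.eval₂_X]
    rw [h1, ← map_mul, ← map_mul, Polynomial.X_mul]
  · have h1 : z = Ψ Polynomial.X := by rw [hΨ, Polynomial.eval₂_X]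
    rw [h1, ← map_mul, ← map_mul, Polynomial.X_mul]
  · show (1 : (Gam ι n)[T;T⁻¹]) * _ = _ * 1
    rw [one_mul, mul_one]
    exact hglue
  · show (1 : (Gam ι n)[T;T⁻¹]) * _ = _ * 1
    rw [one_mul, mul_one]

end deform

end G3

open G3 in
/-- G3 (helper73) -/
theorem G3 (g : Polynomial ℂ[T;T⁻¹]) (hg : g.coeff 0 = 0) (e : ℕ) (he : 0 < e)
    (φ : Polynomial ℂ⟦X⟧[T;T⁻¹]) (h0 : φ.map res = Polynomial.X ^ e)
    (hL : Lifts g φ) (M : ℕ) (hM : M ≠ 0) (ι : Type) [Fintype ι] [DecidableEq ι] [Nonempty ι]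
    (A B : Matrix ι ι ℂ⟦X⟧) (hA : ∀ i j, PowerSeries.X ∣ A i j)
    (hB : ∀ i j, PowerSeries.X ∣ B i j) (hr : φ.eval₂ (scal ι M hM) (pen A B) = 0) (N : ℕ)
    (hN : ∀ (Γ : Type) [Ring Γ] [Algebra ℂ Γ] (ε : Γ →ₐ[ℂ] ℂ), ArtLocal Γ ε →
      ∀ E : NCDef g Γ ε, E.y₂ ^ N = 0) : pen A B ^ N = 0 := by
  have h : ∀ n : ℕ, lmap ((qn n).mapMatrix) (pen A B ^ N) = 0 := by
    intro n
    obtain ⟨E, hE, -⟩ := exists_def g hg e he φ h0 hL M hM A B hA hB hr n
    have h1 := hN (Gam ι n) (eps ι n) (artLocal ι n) E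
    have h2 := congrArg (lmap ((Gam ι n).val : Gam ι n →+* Matrix ι ι (Rn n))) h1
    rw [map_pow, hE, map_zero, ← map_pow] at h2
    exact h2
  refine LaurentPolynomial.ext fun m => ?_
  show (pen A B ^ N).coeff m = 0
  refine Matrix.ext fun i j => PowerSeries.ext fun k => ?_
  have h1 := h k
  have h2 : (lmap ((qn k).mapMatrix) (pen A B ^ N)).coeff m = 0 := by rw [h1]; rfl
  rw [coeff_lmap] at h2
  have h3 : qn k ((pen A B ^ N).coeff m i j) = 0 := congrFun (congrFun h2 i) j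
  rw [qn_eq_zero, PowerSeries.X_pow_dvd_iff] at h3
  rw [h3 k (by omega)]
  rfl

end Pool.Agent.DWH
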