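import Pool.Agent.DWH.Core
import Pool.Agent.DWH.G1
import Pool.Agent.DWH.G2
import Pool.Agent.DWH.G3

/-! A finite dimensional noncommutative deformation algebra forbids moving sections over plane curves. -/

set_option autoImplicit false

open scoped LaurentPolynomial PowerSeries
open LaurentPolynomial (T)

namespace Pool.Agent.DWH

theorem final (g : Polynomial ℂ[T;T⁻¹]) (hg : g.coeff 0 = 0) (h : FinVersal g) (d : ℕ)
    (φ : Polynomial ℂ⟦X⟧[T;T⁻¹]) (hφ : IsPlaneCurve d φ) (h0 : φ.map res = Polynomial.X ^ d)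
    (hL : Lifts g φ) : φ = Polynomial.X ^ d := by
  induction d generalizing φ with
  | zero =>
    rw [pow_zero]
    exact Polynomial.eq_one_of_monic_natDegree_zero hφ.monic hφ.natDegree
  | succ d ih =>
    by_cases hc : φ.coeff 0 = 0
    · obtain ⟨ψ, rfl⟩ := Polynomial.X_dvd_iff.2 hc
      have hψ : IsPlaneCurve d ψ := hφ.divX
      have h1 : ψ.map res = Polynomial.X ^ d := by
        have h2 : Polynomial.X * ψ.map res = Polynomial.X * Polynomial.X ^ d := by
          rw [← pow_succ', ← h0, Polynomial.map_mul, Polynomial.map_X]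
        ext1 n
        have := congrArg (fun p => p.coeff (n + 1)) h2
        simpa only [Polynomial.coeff_X_mul] using this
      have hL' : Lifts g ψ := by
        obtain ⟨s0, s1, a, b, q, hq⟩ := hL
        exact ⟨s0, s1, a, b, Polynomial.X * q, by rw [hq]; ring⟩
      rw [ih ψ hψ h1 hL', pow_succ']
    · exfalso
      obtain ⟨M, hM, ι, i1, i2, i3, A, B, hA, hB, hr⟩ := G1 (d + 1) (Nat.succ_pos d) φ hφ h0
      obtain ⟨N, hN⟩ := G2 g h
      exact pen_not_nilpotent hM A B φ hc hr N
        (G3 g hg (d + 1) (Nat.succ_pos d) φ h0 hL M hM ι A B hA hB hr N hN)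

end Pool.Agent.DWH
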