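import Pool.Agent.DWH.G2
import Pool.Agent.DWH.G3

/-!
# Package H1 (helper37): factorisation of unipotent gluing units

A unit of `Γ[x, x⁻¹]` that is `1` modulo `ker ε` is a product of a unit of `Γ[x]` and a unit of
`Γ[w]`, both `1` modulo `ker ε`.
-/

set_option autoImplicit false

open scoped LaurentPolynomial
open LaurentPolynomial (T)

namespace Pool.Agent.DWH

section H1

variable {Γ : Type} [Ring Γ] [Algebra ℂ Γ]

theorem pw_left (ε : Γ →ₐ[ℂ] ℂ) (k : ℕ) (c : Γ) {a : Γ} (ha : a ∈ pw ε (k + 1)) :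
    c * a ∈ pw ε (k + 1) := by
  unfold pw at ha
  induction ha using AddSubmonoid.closure_induction with
  | mem x hx =>
    obtain ⟨l, hl, h1, rfl⟩ := hx
    obtain ⟨y, l', rfl⟩ : ∃ y l', l = y :: l' := by
      cases l with
      | nil => simp at hl
      | cons y l' => exact ⟨y, l', rfl⟩
    refine AddSubmonoid.subset_closure ⟨(c * y) :: l', by simpa using hl, ?_, by
      simp [mul_assoc]⟩
    intro x hx
    rcases List.mem_cons.1 hx with rfl | hx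
    · rw [map_mul, h1 y (by simp), mul_zero]
    · exact h1 x (List.mem_cons_of_mem _ hx)
  | zero => rw [mul_zero]; exact zero_mem _
  | add x y _ _ hx hy => rw [mul_add]; exact add_mem hx hy

theorem pw_right (ε : Γ →ₐ[ℂ] ℂ) (k : ℕ) (c : Γ) {a : Γ} (ha : a ∈ pw ε (k + 1)) :
    a * c ∈ pw ε (k + 1) := by
  unfold pw at ha
  induction ha using AddSubmonoid.closure_induction with
  | mem x hx =>
    obtain ⟨l, hl, h1, rfl⟩ := hx
    obtain ⟨l', y, rfl⟩ : ∃ l' y, l = l' ++ [y] := by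
      rcases List.eq_nil_or_concat l with h | ⟨l', y, h⟩
      · rw [h] at hl; simp at hl
      · exact ⟨l', y, by simpa using h⟩
    refine AddSubmonoid.subset_closure ⟨l' ++ [y * c], by simpa using hl, ?_, by
      simp [mul_assoc]⟩
    intro x hx
    rcases List.mem_append.1 hx with hx | hx
    · exact h1 x (List.mem_append_left _ hx)
    · rw [List.mem_singleton.1 hx, map_mul, h1 y (by simp), zero_mul]
  | zero => rw [zero_mul]; exact zero_mem _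
  | add x y _ _ hx hy => rw [add_mul]; exact add_mem hx hy

theorem pw_ker (ε : Γ →ₐ[ℂ] ℂ) (k : ℕ) {a : Γ} (ha : a ∈ pw ε (k + 1)) : ε a = 0 := by
  unfold pw at ha
  induction ha using AddSubmonoid.closure_induction with
  | mem x hx =>
    obtain ⟨l, hl, h1, rfl⟩ := hx
    cases l with
    | nil => simp at hl
    | cons y l' => rw [List.prod_cons, map_mul, h1 y (by simp), zero_mul]
  | zero => exact map_zero _
  | add x y _ _ hx hy => rw [map_add, hx, hy, add_zero]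

theorem coeff_left (ε : Γ →ₐ[ℂ] ℂ) (k : ℕ) (c p : Γ[T;T⁻¹])
    (hp : ∀ n, p.coeff n ∈ pw ε (k + 1)) (n : ℤ) : (c * p).coeff n ∈ pw ε (k + 1) := by
  classical
  rw [AddMonoidAlgebra.coeff_mul]
  refine sum_mem fun i _ => sum_mem fun j _ => ?_
  dsimp only
  split
  · exact pw_left ε k _ (hp j)
  · exact zero_mem _

theorem coeff_right (ε : Γ →ₐ[ℂ] ℂ) (k : ℕ) (c p : Γ[T;T⁻¹])
    (hp : ∀ n, p.coeff n ∈ pw ε (k + 1)) (n : ℤ) : (p * c).coeff n ∈ pw ε (k + 1) := by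
  classical
  rw [AddMonoidAlgebra.coeff_mul]
  refine sum_mem fun i _ => sum_mem fun j _ => ?_
  dsimp only
  split
  · exact pw_right ε k _ (hp i)
  · exact zero_mem _

theorem lmap_eq_zero (ε : Γ →ₐ[ℂ] ℂ) (k : ℕ) (p : Γ[T;T⁻¹])
    (hp : ∀ n, p.coeff n ∈ pw ε (k + 1)) : lmap (ε : Γ →+* ℂ) p = 0 := by
  ext n
  rw [coeff_lmap]
  exact pw_ker ε k (hp n)

/-- `1 - q` is invertible if `q` is nilpotent, with inverse `1 + q + q² + ...` -/
noncomputable def unip (q : Γ[T;T⁻¹]) (N : ℕ) (h : q ^ N = 0) : (Γ[T;T⁻¹])ˣ where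
  val := 1 - q
  inv := ∑ i ∈ Finset.range N, q ^ i
  val_inv := by rw [mul_neg_geom_sum, h, sub_zero]
  inv_val := by rw [geom_sum_mul_neg, h, sub_zero]

theorem H1_aux (ε : Γ →ₐ[ℂ] ℂ) (N : ℕ)
    (hN : ∀ l : List Γ, l.length = N + 1 → (∀ x ∈ l, ε x = 0) → l.prod = 0) (m : ℕ) :
    ∀ (k : ℕ) (_ : k + m = N) (u : (Γ[T;T⁻¹])ˣ)
      (_ : ∀ n, ((u : Γ[T;T⁻¹]) - 1).coeff n ∈ pw ε (k + 1)),
    ∃ a b : (Γ[T;T⁻¹])ˣ, InX (a : Γ[T;T⁻¹]) ∧ InX ((a⁻¹ : (Γ[T;T⁻¹])ˣ) : Γ[T;T⁻¹]) ∧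
      InW (b : Γ[T;T⁻¹]) ∧ InW ((b⁻¹ : (Γ[T;T⁻¹])ˣ) : Γ[T;T⁻¹]) ∧
      lmap (ε : Γ →+* ℂ) (a : Γ[T;T⁻¹]) = 1 ∧ lmap (ε : Γ →+* ℂ) (b : Γ[T;T⁻¹]) = 1 ∧
      u * b = a := by
  induction m with
  | zero =>
    intro k hk u hu
    rw [add_zero] at hk
    subst hk
    have h1 : (u : Γ[T;T⁻¹]) - 1 = 0 := by
      ext n
      rw [pw_zero ε (k + 1) hN (hu n)]
      rfl
    have h2 : u = 1 := Units.ext (sub_eq_zero.1 h1)
    subst h2
    refine ⟨1, 1, G3.inX_one, ?_, G3.inW_one, ?_, map_one _, map_one _, one_mul _⟩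
    · rw [inv_one]; exact G3.inX_one
    · rw [inv_one]; exact G3.inW_one
  | succ m ih =>
    intro k hk u hu
    classical
    set n : Γ[T;T⁻¹] := (u : Γ[T;T⁻¹]) - 1 with hn
    let p : Γ[T;T⁻¹] := AddMonoidAlgebra.ofCoeff (n.coeff.filter (fun i => 0 ≤ i))
    let q : Γ[T;T⁻¹] := AddMonoidAlgebra.ofCoeff (n.coeff.filter (fun i => ¬ 0 ≤ i))
    have hpc : ∀ i, p.coeff i = if 0 ≤ i then n.coeff i else 0 := fun i =>
      Finsupp.filter_apply _ _ _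
    have hqc : ∀ i, q.coeff i = if ¬ 0 ≤ i then n.coeff i else 0 := fun i =>
      Finsupp.filter_apply _ _ _
    have hpq : p + q = n := by
      ext i
      rw [AddMonoidAlgebra.coeff_add, Finsupp.add_apply, hpc, hqc]
      by_cases h : 0 ≤ i
      · rw [if_pos h, if_neg (not_not.2 h), add_zero]
      · rw [if_neg h, if_pos h, zero_add]
    have hp : ∀ i, p.coeff i ∈ pw ε (k + 1) := by
      intro i
      rw [hpc]
      split_ifs
      · exact hu i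
      · exact zero_mem _
    have hq : ∀ i, q.coeff i ∈ pw ε (k + 1) := by
      intro i
      rw [hqc]
      by_cases h : 0 ≤ i
      · rw [if_neg (not_not.2 h)]
        exact zero_mem _
      · rw [if_pos h]
        exact hu i
    have hpX : InX p := fun i hi => by rw [hpc, if_neg (by omega)]
    have hqW : InW q := fun i hi => by rw [hqc, if_neg (by omega)]
    have hpN : (-p) ^ (N + 1) = 0 := by
      rw [neg_pow, pow_eq_zero ε p (lmap_eq_zero ε k p hp) (N + 1) hN, mul_zero]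
    have hqN : (-q) ^ (N + 1) = 0 := by
      rw [neg_pow, pow_eq_zero ε q (lmap_eq_zero ε k q hq) (N + 1) hN, mul_zero]
    let A := unip (-p) (N + 1) hpN
    let B := unip (-q) (N + 1) hqN
    have hA : (A : Γ[T;T⁻¹]) = 1 + p := by
      change (1 : Γ[T;T⁻¹]) - -p = 1 + p
      rw [sub_neg_eq_add]
    have hB : (B : Γ[T;T⁻¹]) = 1 + q := by
      change (1 : Γ[T;T⁻¹]) - -q = 1 + q
      rw [sub_neg_eq_add]
    have hnegX : InX (-p) := fun i hi => by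
      rw [AddMonoidAlgebra.coeff_neg, Finsupp.neg_apply, hpX i hi, neg_zero]
    have hnegW : InW (-q) := fun i hi => by
      rw [AddMonoidAlgebra.coeff_neg, Finsupp.neg_apply, hqW i hi, neg_zero]
    have hAX : InX (A : Γ[T;T⁻¹]) := by rw [hA]; exact G3.inX_add G3.inX_one hpX
    have hBW : InW (B : Γ[T;T⁻¹]) := by rw [hB]; exact G3.inW_add G3.inW_one hqW
    have hAX' : InX ((A⁻¹ : (Γ[T;T⁻¹])ˣ) : Γ[T;T⁻¹]) := by
      change InX (∑ i ∈ Finset.range (N + 1), (-p) ^ i)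
      refine Finset.sum_induction _ InX (fun _ _ => G3.inX_add) G3.inX_zero fun i _ => ?_
      induction i with
      | zero => rw [pow_zero]; exact G3.inX_one
      | succ i ih => rw [pow_succ]; exact G3.inX_mul (ih (by simp at *; omega)) hnegX
    have hBW' : InW ((B⁻¹ : (Γ[T;T⁻¹])ˣ) : Γ[T;T⁻¹]) := by
      change InW (∑ i ∈ Finset.range (N + 1), (-q) ^ i)
      refine Finset.sum_induction _ InW (fun _ _ => G3.inW_add) G3.inW_zero fun i _ => ?_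
      induction i with
      | zero => rw [pow_zero]; exact G3.inW_one
      | succ i ih => rw [pow_succ]; exact G3.inW_mul (ih (by simp at *; omega)) hnegW
    have hAe : lmap (ε : Γ →+* ℂ) (A : Γ[T;T⁻¹]) = 1 := by
      rw [hA, map_add, map_one, lmap_eq_zero ε k p hp, add_zero]
    have hBe : lmap (ε : Γ →+* ℂ) (B : Γ[T;T⁻¹]) = 1 := by
      rw [hB, map_add, map_one, lmap_eq_zero ε k q hq, add_zero]
    have hBe' : lmap (ε : Γ →+* ℂ) ((B⁻¹ : (Γ[T;T⁻¹])ˣ) : Γ[T;T⁻¹]) = 1 := by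
      have h : lmap (ε : Γ →+* ℂ) ((B : Γ[T;T⁻¹]) * ((B⁻¹ : (Γ[T;T⁻¹])ˣ) : Γ[T;T⁻¹])) = 1 := by
        rw [Units.mul_inv, map_one]
      rwa [map_mul, hBe, one_mul] at h
    -- the remainder
    have hrem : ∀ i, (((A⁻¹ * u * B⁻¹ : (Γ[T;T⁻¹])ˣ) : Γ[T;T⁻¹]) - 1).coeff i ∈
        pw ε (k + 1 + 1) := by
      have h1 : ((A⁻¹ * u * B⁻¹ : (Γ[T;T⁻¹])ˣ) : Γ[T;T⁻¹]) - 1 =
          (-((A⁻¹ : (Γ[T;T⁻¹])ˣ) : Γ[T;T⁻¹])) * ((p * q) * ((B⁻¹ : (Γ[T;T⁻¹])ˣ) : Γ[T;T⁻¹])) := by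
        have h2 : (u : Γ[T;T⁻¹]) = (A : Γ[T;T⁻¹]) * B - p * q := by
          have h3 : (u : Γ[T;T⁻¹]) = 1 + (p + q) := by rw [hpq, hn]; abel
          rw [hA, hB, h3]
          noncomm_ring
        rw [Units.val_mul, Units.val_mul, h2, mul_sub, sub_mul, ← mul_assoc _ (A : Γ[T;T⁻¹]),
          Units.inv_mul, one_mul, Units.mul_inv]
        noncomm_ring
      intro i
      rw [h1]
      refine coeff_left ε (k + 1) _ _ (fun j => ?_) i
      refine coeff_right ε (k + 1) _ _ (fun l => ?_) j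
      exact coeff_mul_mem ε (k + 1) p q (fun r => pw_ker ε k (hp r)) hq l
    obtain ⟨a', b', h1, h2, h3, h4, h5, h6, h7⟩ := ih (k + 1) (by omega) _ hrem
    refine ⟨A * a', B⁻¹ * b', ?_, ?_, ?_, ?_, ?_, ?_, ?_⟩
    · rw [Units.val_mul]; exact G3.inX_mul hAX h1
    · rw [mul_inv_rev, Units.val_mul]; exact G3.inX_mul h2 hAX'
    · rw [Units.val_mul]; exact G3.inW_mul hBW' h3
    · rw [mul_inv_rev, inv_inv, Units.val_mul]; exact G3.inW_mul h4 hBW
    · rw [Units.val_mul, map_mul, hAe, h5, mul_one]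
    · rw [Units.val_mul, map_mul, hBe', h6, mul_one]
    · rw [← h7]
      simp only [mul_assoc]
      rw [mul_inv_cancel_left]

/-- H1: every unit of `Γ[x, x⁻¹]` that is `1` modulo `ker ε` factors -/
theorem H1 (ε : Γ →ₐ[ℂ] ℂ) (hΓ : ArtLocal Γ ε) (u : (Γ[T;T⁻¹])ˣ)
    (hu : lmap (ε : Γ →+* ℂ) (u : Γ[T;T⁻¹]) = 1) :
    ∃ a b : (Γ[T;T⁻¹])ˣ, InX (a : Γ[T;T⁻¹]) ∧ InX ((a⁻¹ : (Γ[T;T⁻¹])ˣ) : Γ[T;T⁻¹]) ∧
      InW (b : Γ[T;T⁻¹]) ∧ InW ((b⁻¹ : (Γ[T;T⁻¹])ˣ) : Γ[T;T⁻¹]) ∧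
      lmap (ε : Γ →+* ℂ) (a : Γ[T;T⁻¹]) = 1 ∧ lmap (ε : Γ →+* ℂ) (b : Γ[T;T⁻¹]) = 1 ∧
      u * b = a := by
  obtain ⟨N, hN⟩ := hΓ.nilpotent
  refine H1_aux ε N ?_ N 0 (zero_add _) u ?_
  · intro l hl h
    cases l with
    | nil => simp at hl
    | cons y l' =>
      rw [List.prod_cons, hN l' (by simpa using hl) (fun x hx => h x (List.mem_cons_of_mem _ hx)),
        mul_zero]
  · intro n
    refine AddSubmonoid.subset_closure ⟨[((u : Γ[T;T⁻¹]) - 1).coeff n], rfl, ?_, by simp⟩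
    intro x hx
    rw [List.mem_singleton.1 hx]
    have h := coeff_lmap (ε : Γ →+* ℂ) ((u : Γ[T;T⁻¹]) - 1) n
    rw [map_sub, hu, map_one, sub_self] at h
    exact h.symm

end H1

end Pool.Agent.DWH
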