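import Pool.Agent.DWH.H1

/-!
# Normal form of deformations and the order of nilpotency of the coefficients of `y₂`
-/

set_option autoImplicit false
set_option linter.unusedSectionVars false

open scoped LaurentPolynomial PowerSeries
open LaurentPolynomial (T)

namespace Pool.Agent.DWH

namespace H3

section

variable {Γ : Type} [Ring Γ] [Algebra ℂ Γ]

/-- a Laurent polynomial in both `Γ[x]` and `Γ[x⁻¹]` is a constant -/
theorem const {p : Γ[T;T⁻¹]} (h1 : InX p) (h2 : InW p) : p = LaurentPolynomial.C (p.coeff 0) := by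
  ext n
  show p.coeff n = (LaurentPolynomial.C (p.coeff 0)).coeff n
  rw [G3.coeff_C]
  rcases lt_trichotomy n 0 with h | h | h
  · rw [h1 n h, if_neg (by omega)]
  · rw [h, if_pos rfl]
  · rw [h2 n h, if_neg (by omega)]

theorem coeff_C_mul (a : Γ) (p : Γ[T;T⁻¹]) (n : ℤ) :
    (LaurentPolynomial.C a * p).coeff n = a * p.coeff n := by
  show (AddMonoidAlgebra.single 0 a * p).coeff n = _
  rw [AddMonoidAlgebra.coeff_single_zero_mul]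

theorem coeff_mul_C (a : Γ) (p : Γ[T;T⁻¹]) (n : ℤ) :
    (p * LaurentPolynomial.C a).coeff n = p.coeff n * a := by
  show (p * AddMonoidAlgebra.single 0 a).coeff n = _
  rw [AddMonoidAlgebra.coeff_mul_single_zero]

theorem prod_conj {c c' : Γ} (h : c * c' = 1) (F : ℤ → Γ) (l : List ℤ) :
    (l.map fun n => c' * F n * c).prod * c' = c' * (l.map F).prod := by
  induction l with
  | nil => simp
  | cons a l ih =>
    rw [List.map_cons, List.prod_cons, List.map_cons, List.prod_cons, mul_assoc, ih]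
    calc c' * F a * c * (c' * (l.map F).prod) = c' * F a * (c * c') * (l.map F).prod := by
          simp only [mul_assoc]
      _ = _ := by rw [h, mul_one, mul_assoc]

end

end H3

/-- H3 -/
theorem H3 (g : Polynomial ℂ[T;T⁻¹]) (h : FinVersal g) :
    ∃ N : ℕ, ∀ (Γ : Type) [Ring Γ] [Algebra ℂ Γ] (ε : Γ →ₐ[ℂ] ℂ), ArtLocal Γ ε →
      ∀ E : NCDef g Γ ε, (E.u : Γ[T;T⁻¹]) = 1 →
        ∀ l : List ℤ, l.length = N → (l.map fun n => E.y₂.coeff n).prod = 0 := by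
  obtain ⟨Λ, _, _, εΛ, hΛ, D, hD⟩ := h
  obtain ⟨N, hN⟩ := hΛ.nilpotent
  obtain ⟨a, b, ha, ha', hb, hb', hra, hrb, hab⟩ := H1 εΛ hΛ D.u D.u_res
  refine ⟨N, fun Γ _ _ ε hΓ E hE l hl => ?_⟩
  obtain ⟨f, hf, a₁, b₁, h1, h1', h2, h2', -, -, -, h3, -, -, h4⟩ := hD Γ ε hΓ E
  -- the image of the normalising units
  let F : Λ[T;T⁻¹] →* Γ[T;T⁻¹] := (lmap (f : Λ →+* Γ) : Λ[T;T⁻¹] →* Γ[T;T⁻¹])
  set A := Units.map F a with hA
  set B := Units.map F b with hB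
  have hAX : InX ((A⁻¹ : (Γ[T;T⁻¹])ˣ) : Γ[T;T⁻¹]) := ha'.lmap _
  have hBW : InW ((B⁻¹ : (Γ[T;T⁻¹])ˣ) : Γ[T;T⁻¹]) := hb'.lmap _
  have hAX' : InX ((A : (Γ[T;T⁻¹])ˣ) : Γ[T;T⁻¹]) := ha.lmap _
  have hBW' : InW ((B : (Γ[T;T⁻¹])ˣ) : Γ[T;T⁻¹]) := hb.lmap _
  have hAB : Units.map F D.u * B = A := by rw [hA, hB, ← map_mul, hab]
  have hE' : E.u = 1 := Units.ext hE
  have h4' : Units.map F D.u * b₁ = a₁ := by
    have : (D.map f hf).u * b₁ = a₁ * E.u := h4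
    rw [hE', mul_one] at this
    exact this
  -- the constant
  set α := A⁻¹ * a₁ with hα
  have hα' : α = B⁻¹ * b₁ := by
    rw [hα, ← h4', ← hAB]
    group
  have hαX : InX (α : Γ[T;T⁻¹]) := by rw [hα, Units.val_mul]; exact G3.inX_mul hAX h1
  have hαW : InW (α : Γ[T;T⁻¹]) := by rw [hα', Units.val_mul]; exact G3.inW_mul hBW h2
  have hαX' : InX ((α⁻¹ : (Γ[T;T⁻¹])ˣ) : Γ[T;T⁻¹]) := by
    rw [hα, mul_inv_rev, inv_inv, Units.val_mul]; exact G3.inX_mul h1' hAX'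
  have hαW' : InW ((α⁻¹ : (Γ[T;T⁻¹])ˣ) : Γ[T;T⁻¹]) := by
    rw [hα', mul_inv_rev, inv_inv, Units.val_mul]; exact G3.inW_mul h2' hBW'
  set c := (α : Γ[T;T⁻¹]).coeff 0 with hc
  set c' := ((α⁻¹ : (Γ[T;T⁻¹])ˣ) : Γ[T;T⁻¹]).coeff 0 with hc'
  have e1 : (α : Γ[T;T⁻¹]) = LaurentPolynomial.C c := H3.const hαX hαW
  have e2 : ((α⁻¹ : (Γ[T;T⁻¹])ˣ) : Γ[T;T⁻¹]) = LaurentPolynomial.C c' := H3.const hαX' hαW'
  have e3 : c * c' = 1 := by
    have h5 := congrArg (fun p : Γ[T;T⁻¹] => p.coeff 0) (Units.mul_inv α)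
    simp only [e1, e2] at h5
    rw [H3.coeff_C_mul, G3.coeff_C, if_pos rfl] at h5
    rw [h5, ← map_one (LaurentPolynomial.C : Γ →+* Γ[T;T⁻¹]), G3.coeff_C, if_pos rfl]
  have e3' : c' * c = 1 := by
    have h5 := congrArg (fun p : Γ[T;T⁻¹] => p.coeff 0) (Units.inv_mul α)
    simp only [e1, e2] at h5
    rw [H3.coeff_C_mul, G3.coeff_C, if_pos rfl] at h5
    rw [h5, ← map_one (LaurentPolynomial.C : Γ →+* Γ[T;T⁻¹]), G3.coeff_C, if_pos rfl]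
  -- the normalised versal `y₂`
  set Y : Λ[T;T⁻¹] := ((a⁻¹ : (Λ[T;T⁻¹])ˣ) : Λ[T;T⁻¹]) * D.y₂ * (a : Λ[T;T⁻¹]) with hY
  have hYr : ∀ n, εΛ (Y.coeff n) = 0 := by
    intro n
    have h6 : lmap (εΛ : Λ →+* ℂ) Y = 0 := by
      rw [hY, map_mul, map_mul, D.y₂_res, mul_zero, zero_mul]
    have h7 := coeff_lmap (εΛ : Λ →+* ℂ) Y n
    rw [h6] at h7
    exact h7.symm
  have h5 : E.y₂ = LaurentPolynomial.C c' * lmap (f : Λ →+* Γ) Y * LaurentPolynomial.C c := by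
    rw [← e1, ← e2, hY, map_mul, map_mul]
    have h6 : lmap (f : Λ →+* Γ) D.y₂ * (a₁ : Γ[T;T⁻¹]) = (a₁ : Γ[T;T⁻¹]) * E.y₂ := h3
    have h7 : lmap (f : Λ →+* Γ) (a : Λ[T;T⁻¹]) = (A : Γ[T;T⁻¹]) := rfl
    have h8 : lmap (f : Λ →+* Γ) ((a⁻¹ : (Λ[T;T⁻¹])ˣ) : Λ[T;T⁻¹]) =
        ((A⁻¹ : (Γ[T;T⁻¹])ˣ) : Γ[T;T⁻¹]) := rfl
    have h9 : (a₁ : Γ[T;T⁻¹]) = (A : Γ[T;T⁻¹]) * (α : Γ[T;T⁻¹]) := by
      rw [hα, ← Units.val_mul, mul_inv_cancel_left]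
    rw [h7, h8]
    have h10 : E.y₂ = ((a₁⁻¹ : (Γ[T;T⁻¹])ˣ) : Γ[T;T⁻¹]) * (lmap (f : Λ →+* Γ) D.y₂ *
        (a₁ : Γ[T;T⁻¹])) := by
      rw [h6, ← mul_assoc, Units.inv_mul, one_mul]
    have h11 : ((a₁⁻¹ : (Γ[T;T⁻¹])ˣ) : Γ[T;T⁻¹]) =
        ((α⁻¹ : (Γ[T;T⁻¹])ˣ) : Γ[T;T⁻¹]) * ((A⁻¹ : (Γ[T;T⁻¹])ˣ) : Γ[T;T⁻¹]) := by
      rw [← Units.val_mul, ← mul_inv_rev, hα, mul_inv_cancel_left]
    rw [h10, h11, h9]
    simp only [mul_assoc]
  have h6 : ∀ n, E.y₂.coeff n = c' * f (Y.coeff n) * c := by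
    intro n
    rw [h5, H3.coeff_mul_C, H3.coeff_C_mul, coeff_lmap]
    rfl
  have h7 : (l.map fun n => E.y₂.coeff n).prod * c' = c' * (l.map fun n => f (Y.coeff n)).prod := by
    have := H3.prod_conj e3 (fun n => f (Y.coeff n)) l
    rw [← this]
    congr 2
    refine List.map_congr_left fun n _ => h6 n
  have h8 : (l.map fun n => f (Y.coeff n)).prod = 0 := by
    have h9 : (l.map fun n => Y.coeff n).prod = 0 := by
      refine hN _ (by simpa using hl) fun x hx => ?_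
      obtain ⟨n, -, rfl⟩ := List.mem_map.1 hx
      exact hYr n
    have h10 := congrArg f h9
    rw [map_list_prod, List.map_map, map_zero] at h10
    exact h10
  rw [h8, mul_zero] at h7
  have h9 := congrArg (fun t => t * c) h7
  simpa [mul_assoc, e3'] using h9

end Pool.Agent.DWH
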