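import Pool.Agent.DWH.G3

/-!
# The triple line

If the triple curve `y₂ ^ 3 = 0` lifts to `X_g`, then the nilpotent pencil of `3 × 3` matrices
`[[0, 1, 0], [x, 0, 1], [0, -x, 0]]` gives deformations of `O_C` over local algebras, with trivial
gluing, such that the products of the coefficients of `y₂` do not vanish from a certain length on.
-/

set_option autoImplicit false

open scoped LaurentPolynomial PowerSeries
open LaurentPolynomial (T)

namespace Pool.Agent.DWH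

namespace H4

/-- `E₁₂ + E₂₃` -/
noncomputable def A₀ : Matrix (Fin 3) (Fin 3) ℂ⟦X⟧ := !![0, 1, 0; 0, 0, 1; 0, 0, 0]

/-- `E₂₁ - E₃₂` -/
noncomputable def B₀ : Matrix (Fin 3) (Fin 3) ℂ⟦X⟧ := !![0, 0, 0; 1, 0, 0; 0, -1, 0]

/-- `diag(1, -1, 0)` -/
theorem A₀_mul_B₀ : A₀ * B₀ = Matrix.diagonal ![1, -1, 0] := by
  ext1 i j
  fin_cases i <;> fin_cases j <;>
    simp [A₀, B₀, Matrix.mul_apply, Fin.sum_univ_three, Matrix.diagonal]

theorem rel0 : A₀ * A₀ * A₀ = 0 := by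
  ext1 i j
  fin_cases i <;> fin_cases j <;> simp [A₀, Matrix.mul_apply, Fin.sum_univ_three]

theorem rel1 : A₀ * A₀ * B₀ + A₀ * B₀ * A₀ + B₀ * A₀ * A₀ = 0 := by
  ext1 i j
  fin_cases i <;> fin_cases j <;> simp [A₀, B₀]

theorem rel2 : A₀ * B₀ * B₀ + B₀ * A₀ * B₀ + B₀ * B₀ * A₀ = 0 := by
  ext1 i j
  fin_cases i <;> fin_cases j <;> simp [A₀, B₀]

theorem rel3 : B₀ * B₀ * B₀ = 0 := by
  ext1 i j
  fin_cases i <;> fin_cases j <;> simp [B₀, Matrix.mul_apply, Fin.sum_univ_three]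

theorem cube_aux {S : Type} [Ring S] (a b t : S) (ha : t * a = a * t) (hb : t * b = b * t) :
    (a + b * t) ^ 3 = a * a * a + (a * a * b + a * b * a + b * a * a) * t +
      (a * b * b + b * a * b + b * b * a) * (t * t) + b * b * b * (t * (t * t)) := by
  have ha' : ∀ s, t * (a * s) = a * (t * s) := fun s => by rw [← mul_assoc, ha, mul_assoc]
  have hb' : ∀ s, t * (b * s) = b * (t * s) := fun s => by rw [← mul_assoc, hb, mul_assoc]
  simp only [pow_succ, pow_zero, one_mul, mul_add, add_mul, mul_assoc, ha, ha', hb']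
  abel

/-- the cube of a pencil -/
theorem pen_cube {R : Type} [Ring R] (A B : R) :
    (LaurentPolynomial.C A + LaurentPolynomial.C B * T 1 : R[T;T⁻¹]) ^ 3 =
      LaurentPolynomial.C (A * A * A) +
      LaurentPolynomial.C (A * A * B + A * B * A + B * A * A) * T 1 +
      LaurentPolynomial.C (A * B * B + B * A * B + B * B * A) * (T 1 * T 1) +
      LaurentPolynomial.C (B * B * B) * (T 1 * (T 1 * T 1)) := by
  rw [cube_aux _ _ _ (LaurentPolynomial.T_mul 1 _) (LaurentPolynomial.T_mul 1 _)]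
  simp only [map_add, map_mul]

theorem smul_mul3 (c : ℂ⟦X⟧) (P Q R : Matrix (Fin 3) (Fin 3) ℂ⟦X⟧) :
    (c • P) * (c • Q) * (c • R) = (c * c * c) • (P * Q * R) := by
  simp only [Matrix.smul_mul, Matrix.mul_smul, smul_smul, mul_assoc]

/-- the pencil is nilpotent -/
theorem pen_pow_three (c : ℂ⟦X⟧) : pen (c • A₀) (c • B₀) ^ 3 = 0 := by
  rw [pen, pen_cube]
  simp only [smul_mul3, ← smul_add, rel0, rel1, rel2, rel3, smul_zero, map_zero, zero_mul,
    add_zero]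

theorem coeff_pen_zero {R : Type} [Semiring R] (A B : R) :
    (LaurentPolynomial.C A + LaurentPolynomial.C B * T 1 : R[T;T⁻¹]).coeff 0 = A := by
  rw [AddMonoidAlgebra.coeff_add, Finsupp.add_apply, G3.coeff_C, G3.coeff_C_mul_T]
  simp

theorem coeff_pen_one {R : Type} [Semiring R] (A B : R) :
    (LaurentPolynomial.C A + LaurentPolynomial.C B * T 1 : R[T;T⁻¹]).coeff 1 = B := by
  rw [AddMonoidAlgebra.coeff_add, Finsupp.add_apply, G3.coeff_C, G3.coeff_C_mul_T]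
  simp

end H4

open G3 H4 in
theorem H4_core (g : Polynomial ℂ[T;T⁻¹]) (hg : g.coeff 0 = 0)
    (hL : Lifts g (Polynomial.X ^ 3)) (N : ℕ)
    (hN : ∀ (Γ : Type) [Ring Γ] [Algebra ℂ Γ] (ε : Γ →ₐ[ℂ] ℂ), ArtLocal Γ ε →
      ∀ E : NCDef g Γ ε, (E.u : Γ[T;T⁻¹]) = 1 → ∀ l : List ℤ, l.length = N →
        (l.map fun n => E.y₂.coeff n).prod = 0) : False := by
  have h0 : (Polynomial.X ^ 3 : Polynomial ℂ⟦X⟧[T;T⁻¹]).map res = Polynomial.X ^ 3 := by
    rw [Polynomial.map_pow, Polynomial.map_X]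
  have hdvd : ∀ (P : Matrix (Fin 3) (Fin 3) ℂ⟦X⟧) (i j : Fin 3),
      (PowerSeries.X : ℂ⟦X⟧) ∣ ((PowerSeries.X : ℂ⟦X⟧) • P) i j := fun P i j =>
    ⟨P i j, rfl⟩
  have hr : (Polynomial.X ^ 3 : Polynomial ℂ⟦X⟧[T;T⁻¹]).eval₂ (scal (Fin 3) 1 one_ne_zero)
      (pen ((PowerSeries.X : ℂ⟦X⟧) • A₀) ((PowerSeries.X : ℂ⟦X⟧) • B₀)) = 0 := by
    rw [Polynomial.eval₂_X_pow, pen_pow_three]
  obtain ⟨E, hE, hu⟩ := exists_def g hg 3 (by norm_num) (Polynomial.X ^ 3) h0 hL 1 one_ne_zero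
    ((PowerSeries.X : ℂ⟦X⟧) • A₀) ((PowerSeries.X : ℂ⟦X⟧) • B₀) (hdvd _) (hdvd _) hr (2 * N)
  set V : Gam (Fin 3) (2 * N) →+* Matrix (Fin 3) (Fin 3) (Rn (2 * N)) :=
    ((Gam (Fin 3) (2 * N)).val :
      Gam (Fin 3) (2 * N) →+* Matrix (Fin 3) (Fin 3) (Rn (2 * N))) with hV
  have hcoef : ∀ n : ℤ, V (E.y₂.coeff n) = (qn (2 * N)).mapMatrix
      ((pen ((PowerSeries.X : ℂ⟦X⟧) • A₀) ((PowerSeries.X : ℂ⟦X⟧) • B₀)).coeff n) := by
    intro n
    rw [← coeff_lmap, hE, coeff_lmap]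
  have hA : V (E.y₂.coeff 0) = (qn (2 * N)).mapMatrix ((PowerSeries.X : ℂ⟦X⟧) • A₀) := by
    rw [hcoef, pen, coeff_pen_zero]
  have hB : V (E.y₂.coeff 1) = (qn (2 * N)).mapMatrix ((PowerSeries.X : ℂ⟦X⟧) • B₀) := by
    rw [hcoef, pen, coeff_pen_one]
  -- the word `(0 1)^N`
  have hprod : ∀ k : ℕ, ((List.replicate k [(0 : ℤ), 1]).flatten.map
      fun n => V (E.y₂.coeff n)).prod = (V (E.y₂.coeff 0) * V (E.y₂.coeff 1)) ^ k := by
    intro k
    induction k with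
    | zero => simp
    | succ k ih =>
      rw [List.replicate_succ, List.flatten_cons, List.map_append, List.prod_append, ih,
        pow_succ' (V (E.y₂.coeff 0) * V (E.y₂.coeff 1)) k]
      simp
  have hlen : ((List.replicate N [(0 : ℤ), 1]).flatten).length = 2 * N := by
    simp [List.length_flatten, mul_comm]
  have hz : (((List.replicate N [(0 : ℤ), 1]).flatten.map fun n => E.y₂.coeff n)).prod = 0 := by
    set l := (List.replicate N [(0 : ℤ), 1]).flatten with hl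
    have h1 : ((l.take N).map fun n => E.y₂.coeff n).prod = 0 := by
      refine hN _ _ (artLocal (Fin 3) (2 * N)) E (by rw [hu]; rfl) _ ?_
      rw [List.length_take, hlen]
      omega
    rw [← List.take_append_drop N l, List.map_append, List.prod_append, h1, zero_mul]
  have hz2 : (V (E.y₂.coeff 0) * V (E.y₂.coeff 1)) ^ N = 0 := by
    rw [← hprod N]
    have h1 := congrArg V hz
    rw [map_list_prod, List.map_map, map_zero] at h1
    exact h1
  rw [hA, hB, ← map_mul, ← map_pow, Matrix.smul_mul, Matrix.mul_smul, smul_smul, smul_pow,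
    A₀_mul_B₀, Matrix.diagonal_pow] at hz2
  have h3 := congrFun (congrFun hz2 0) 0
  have h4 : qn (2 * N) ((PowerSeries.X * PowerSeries.X) ^ N * 1) = 0 := by
    simpa using h3
  rw [mul_one, ← pow_two, ← pow_mul, qn_eq_zero] at h4
  have h5 := (PowerSeries.X_pow_dvd_iff.mp h4) (2 * N) (by omega)
  rw [PowerSeries.coeff_X_pow_self] at h5
  exact one_ne_zero h5

end Pool.Agent.DWH
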