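import Pool.Agent.DWH.Final
import Pool.Agent.DWH.H3
import Pool.Agent.DWH.H4

/-! A finite dimensional noncommutative deformation algebra forbids lifted families of plane curves
of degree at least `3`, and leaves only the constant families in degrees `1` and `2`. -/

set_option autoImplicit false

open scoped LaurentPolynomial PowerSeries
open LaurentPolynomial (T)

namespace Pool.Agent.DWH

theorem H4 (g : Polynomial ℂ[T;T⁻¹]) (hg : g.coeff 0 = 0) (hL : Lifts g (Polynomial.X ^ 3)) :
    ¬ FinVersal g := fun h => by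
  obtain ⟨N, hN⟩ := H3 g h
  exact H4_core g hg hL N hN

theorem main (g : Polynomial ℂ[T;T⁻¹]) (hg : g.coeff 0 = 0) (h : FinVersal g) (d : ℕ)
    (φ : Polynomial ℂ⟦X⟧[T;T⁻¹]) (hφ : IsPlaneCurve d φ) (h0 : φ.map res = Polynomial.X ^ d)
    (hL : Lifts g φ) : φ = Polynomial.X ^ d ∧ d ≤ 2 := by
  have h1 := final g hg h d φ hφ h0 hL
  refine ⟨h1, ?_⟩
  by_contra hd
  subst h1
  refine H4 g hg ?_ h
  obtain ⟨s0, s1, a, b, hq⟩ := hL
  exact ⟨s0, s1, a, b, (pow_dvd_pow _ (by omega)).trans hq⟩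

end Pool.Agent.DWH
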